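import Pool.Agent.J6H25.PIT.Alg1

/-!
# Identity testing for expressions with few occurrences: definitions

* `St V l g`, `Rep W l f`: functions on the subsets of a list `l` of variables which are computed
  by a product of invertible matrices of bounded size, one matrix for each variable;
* `plug hs G`, `ho hs i`: contexts; `Seg`, `Sep`: chains of contexts;
* `pt a c T`: the point which is `a` on `T` and `c` elsewhere.
-/

set_option autoImplicit false

namespace Pool.Agent.J6H25.CR

open Pool.Agent.J6H25.PIT

/-! ### products of invertible matrices -/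

/-- `g T` (for `T ⊆ l`, `l = [i₁, …, iₙ]`) is `A₁ (i₁ ∈ T) (A₂ (i₂ ∈ T) (… (Aₙ (iₙ ∈ T) v)))` with
invertible linear maps `Aᵢ b`. -/
def St (V : Type) [AddCommGroup V] [Module ℚ V] : List ℕ → (Finset ℕ → V) → Prop
  | [], _ => True
  | i :: l, g => ∃ (A : Bool → V ≃ₗ[ℚ] V) (g' : Finset ℕ → V), St V l g' ∧
      ∀ T : Finset ℕ, (∀ j ∈ T, j ∈ i :: l) → g T = A (decide (i ∈ T)) (g' (T.erase i))

/-- `f T` (for `T ⊆ l`) is a linear functional of a state in a space of dimension at most `W`. -/
def Rep (W : ℕ) (l : List ℕ) (f : Finset ℕ → ℚ) : Prop :=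
  ∃ (V : Type) (_ : AddCommGroup V) (_ : Module ℚ V) (_ : Module.Finite ℚ V)
    (φ : V →ₗ[ℚ] ℚ) (g : Finset ℕ → V), Module.finrank ℚ V ≤ W ∧ St V l g ∧
    ∀ T : Finset ℕ, (∀ j ∈ T, j ∈ l) → f T = φ (g T)

/-- `∏ α i (i ∈ T)` over the list. -/
def ca (α : ℕ → Bool → ℚ) : List ℕ → Finset ℕ → ℚ
  | [], _ => 1
  | i :: l, T => α i (decide (i ∈ T)) * ca α l T

/-- the constant term of a composition of affine maps `z ↦ α i (i ∈ T) * z + β i (i ∈ T)` -/
def cb (α β : ℕ → Bool → ℚ) : List ℕ → Finset ℕ → ℚ
  | [], _ => 0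
  | i :: l, T => α i (decide (i ∈ T)) * cb α β l T + β i (decide (i ∈ T))

/-! ### contexts -/

/-- a step of a context: the operation, the side of the hole, the sibling -/
abbrev Step := Op × Bool × Ex

/-- the hole of the step is filled with `G` -/
def Step.ap (s : Step) (G : Ex) : Ex := if s.2.1 then Ex.op s.1 G s.2.2 else Ex.op s.1 s.2.2 G

/-- the context `hs` applied to `G`; the first step is the outermost one -/
def plug (hs : List Step) (G : Ex) : Ex := hs.foldr Step.ap G

/-- number of occurrences of the variable `i` in the siblings of a context -/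
def ho (hs : List Step) (i : ℕ) : ℕ := (hs.map fun s => s.2.2.occ i).sum

/-- A chain of contexts from `E` down to `G'` : the variable of each context occurs in it, and the
later variables do not occur in it. -/
inductive Seg (G' : Ex) : Ex → List ℕ → Prop
  | nil (hs : List Step) : Seg G' (plug hs G') []
  | cons {hs : List Step} {G : Ex} {us : List ℕ} {u : ℕ} : ho hs u ≠ 0 → (∀ w ∈ us, ho hs w = 0) →
      Seg G' G us → Seg G' (plug hs G) (u :: us)

/-- A chain of contexts from `E` down to `B` such that in each context only one of the variables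
occurs. -/
inductive Sep (B : Ex) : Ex → List ℕ → Prop
  | nil : Sep B B []
  | cons {hs : List Step} {G : Ex} {us : List ℕ} {u : ℕ} : ho hs u ≠ 0 → (∀ w ∈ us, ho hs w = 0) →
      G.occ u = B.occ u → Sep B G us → Sep B (plug hs G) (u :: us)

/-! ### points -/

/-- the point which is `a` on `T` and `c` elsewhere -/
def pt (a c : ℕ → ℚ) (T : Finset ℕ) (i : ℕ) : ℚ := if i ∈ T then a i else c i

/-- at all points `pt a c T` with `T ⊆ X` the factors of all products in `E` are not zero -/
def Gd (a c : ℕ → ℚ) (X : Finset ℕ) (E : Ex) : Prop :=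
  ∀ s t : Ex, Ex.op Op.mul s t ∈ E.subs → ∀ T ⊆ X,
    s.eval (pt a c T) ≠ 0 ∧ t.eval (pt a c T) ≠ 0

/-- every subexpression `F` of `E` has at most `k` variables which occur more than `j` times in `F`
and at least once outside of `F` -/
def Light (j k : ℕ) (E : Ex) : Prop :=
  ∀ F ∈ E.subs, {i : ℕ | j < F.occ i ∧ F.occ i < E.occ i}.ncard ≤ k

end Pool.Agent.J6H25.CR
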