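import Pool.Agent.J6H25.CR.Defs

/-!
# Closure properties of `Rep` (sums, products over the list, compositions of affine maps)
-/

set_option autoImplicit false

namespace Pool.Agent.J6H25.CR

open Pool.Agent.J6H25.PIT

theorem St.one : ∀ l : List ℕ, St ℚ l (fun _ => (1 : ℚ))
  | [] => trivial
  | _ :: l => ⟨fun _ => LinearEquiv.refl ℚ ℚ, fun _ => 1, St.one l, fun _ _ => rfl⟩

/-- `V = ℚ`, all `A = LinearEquiv.refl`, `g = fun _ => 1`, `φ = c • id`. -/
theorem Rep.const (l : List ℕ) (c : ℚ) : Rep 1 l (fun _ => c) := by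
  refine ⟨ℚ, inferInstance, inferInstance, inferInstance, c • LinearMap.id, fun _ => 1, ?_,
    St.one l, ?_⟩
  · simp
  · intro T _
    simp

theorem Rep.mono {W W' : ℕ} {l : List ℕ} {f : Finset ℕ → ℚ} (h : Rep W l f) (hW : W ≤ W') :
    Rep W' l f := by
  obtain ⟨V, i1, i2, i3, φ, g, hd, hs, hf⟩ := h
  exact ⟨V, i1, i2, i3, φ, g, hd.trans hW, hs, hf⟩

theorem Rep.congr {W : ℕ} {l : List ℕ} {f f' : Finset ℕ → ℚ} (h : Rep W l f)
    (hf : ∀ T : Finset ℕ, (∀ j ∈ T, j ∈ l) → f' T = f T) : Rep W l f' := by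
  obtain ⟨V, i1, i2, i3, φ, g, hd, hs, hf'⟩ := h
  exact ⟨V, i1, i2, i3, φ, g, hd, hs, fun T hT => (hf T hT).trans (hf' T hT)⟩

theorem St.prod {V V' : Type} [AddCommGroup V] [Module ℚ V] [AddCommGroup V'] [Module ℚ V'] :
    ∀ (l : List ℕ) (g : Finset ℕ → V) (g' : Finset ℕ → V'), St V l g → St V' l g' →
      St (V × V') l (fun T => (g T, g' T))
  | [], _, _, _, _ => trivial
  | i :: l, g, g', h, h' => by
    obtain ⟨A, g₁, h₁, e₁⟩ := h
    obtain ⟨A', g₁', h₁', e₁'⟩ := h'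
    refine ⟨fun b => LinearEquiv.prodCongr (A b) (A' b), fun T => (g₁ T, g₁' T),
      St.prod l g₁ g₁' h₁ h₁', ?_⟩
    intro T hT
    simp only [e₁ T hT, e₁' T hT, LinearEquiv.prodCongr_apply]

/-- `V × V'`, `St` componentwise (`LinearEquiv.prodCongr`), `φ.coprod φ'`. -/
theorem Rep.add {W W' : ℕ} {l : List ℕ} {f f' : Finset ℕ → ℚ} (h : Rep W l f) (h' : Rep W' l f') :
    Rep (W + W') l (fun T => f T + f' T) := by
  obtain ⟨V, i1, i2, i3, φ, g, hd, hs, hf⟩ := h
  obtain ⟨V', i1', i2', i3', φ', g', hd', hs', hf'⟩ := h'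
  refine ⟨V × V', inferInstance, inferInstance, inferInstance, φ.coprod φ',
    fun T => (g T, g' T), ?_, St.prod l g g' hs hs', ?_⟩
  · rw [Module.finrank_prod]
    exact Nat.add_le_add hd hd'
  · intro T hT
    simp only [hf T hT, hf' T hT, LinearMap.coprod_apply]

theorem ca_erase (α : ℕ → Bool → ℚ) : ∀ (l : List ℕ) (i : ℕ) (T : Finset ℕ), i ∉ l →
    ca α l (T.erase i) = ca α l T
  | [], _, _, _ => rfl
  | j :: l, i, T, h => by
    have hj : j ≠ i := fun e => h (by simp [e])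
    have hl : i ∉ l := fun e => h (List.mem_cons_of_mem _ e)
    have hd : decide (j ∈ T.erase i) = decide (j ∈ T) := by
      simp [Finset.mem_erase, hj]
    simp only [ca, hd, ca_erase α l i T hl]

theorem cb_erase (α β : ℕ → Bool → ℚ) : ∀ (l : List ℕ) (i : ℕ) (T : Finset ℕ), i ∉ l →
    cb α β l (T.erase i) = cb α β l T
  | [], _, _, _ => rfl
  | j :: l, i, T, h => by
    have hj : j ≠ i := fun e => h (by simp [e])
    have hl : i ∉ l := fun e => h (List.mem_cons_of_mem _ e)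
    have hd : decide (j ∈ T.erase i) = decide (j ∈ T) := by
      simp [Finset.mem_erase, hj]
    simp only [cb, hd, cb_erase α β l i T hl]

theorem St.ca {α : ℕ → Bool → ℚ} (hα : ∀ i b, α i b ≠ 0) : ∀ l : List ℕ, l.Nodup →
    St ℚ l (CR.ca α l)
  | [], _ => trivial
  | i :: l, hl => by
    rw [List.nodup_cons] at hl
    refine ⟨fun b => LinearEquiv.smulOfNeZero ℚ ℚ (α i b) (hα i b), CR.ca α l,
      St.ca hα l hl.2, ?_⟩
    intro T _
    rw [ca_erase α l i T hl.1]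
    simp only [CR.ca, LinearEquiv.smulOfNeZero_apply, smul_eq_mul]

/-- `V = ℚ`, `A i b` = multiplication by `α i b ≠ 0`. -/
theorem rep_ca {α : ℕ → Bool → ℚ} (hα : ∀ i b, α i b ≠ 0) (l : List ℕ) (hl : l.Nodup) :
    Rep 1 l (ca α l) := by
  refine ⟨ℚ, inferInstance, inferInstance, inferInstance, LinearMap.id, ca α l, ?_,
    St.ca hα l hl, ?_⟩
  · simp
  · intro T _
    rfl

/-- the invertible map `(z, w) ↦ (a * z + b * w, w)` -/
noncomputable def affEquiv (a b : ℚ) (ha : a ≠ 0) : (ℚ × ℚ) ≃ₗ[ℚ] (ℚ × ℚ) where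
  toFun p := (a * p.1 + b * p.2, p.2)
  map_add' p q := by
    ext
    · simp only [Prod.fst_add, Prod.snd_add]; ring
    · simp
  map_smul' c p := by
    ext
    · simp only [Prod.smul_fst, Prod.smul_snd, smul_eq_mul, RingHom.id_apply]; ring
    · simp
  invFun p := (a⁻¹ * (p.1 - b * p.2), p.2)
  left_inv p := by
    ext
    · simp only []
      field_simp
      ring
    · rfl
  right_inv p := by
    ext
    · simp only []
      field_simp
      ring
    · rfl

theorem affEquiv_apply (a b : ℚ) (ha : a ≠ 0) (z w : ℚ) :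
    affEquiv a b ha (z, w) = (a * z + b * w, w) := rfl

theorem St.cb {α : ℕ → Bool → ℚ} (hα : ∀ i b, α i b ≠ 0) (β : ℕ → Bool → ℚ) :
    ∀ l : List ℕ, l.Nodup → St (ℚ × ℚ) l (fun T => (CR.cb α β l T, (1 : ℚ)))
  | [], _ => trivial
  | i :: l, hl => by
    rw [List.nodup_cons] at hl
    refine ⟨fun b => affEquiv (α i b) (β i b) (hα i b), fun T => (CR.cb α β l T, (1 : ℚ)),
      St.cb hα β l hl.2, ?_⟩
    intro T _
    rw [affEquiv_apply, cb_erase α β l i T hl.1]
    simp only [CR.cb, mul_one]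

/-- `V = ℚ × ℚ`, `A i b (z, w) = (α i b * z + β i b * w, w)` (invertible), `g [] = (0, 1)`,
`φ = fst`. -/
theorem rep_cb {α : ℕ → Bool → ℚ} (hα : ∀ i b, α i b ≠ 0) (β : ℕ → Bool → ℚ) (l : List ℕ)
    (hl : l.Nodup) : Rep 2 l (cb α β l) := by
  refine ⟨ℚ × ℚ, inferInstance, inferInstance, inferInstance, LinearMap.fst ℚ ℚ ℚ,
    fun T => (cb α β l T, (1 : ℚ)), ?_, St.cb hα β l hl, ?_⟩
  · rw [Module.finrank_prod]
    simp
  · intro T _
    rfl

end Pool.Agent.J6H25.CR
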