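import Pool.Agent.J6H25.CR.Defs

/-!
# Products of representations (module RA2, helper58)
-/

set_option autoImplicit false

open scoped TensorProduct

namespace Pool.Agent.J6H25.CR

open Pool.Agent.J6H25.PIT

/-- the tensor product of two states -/
theorem St.tmul {V V' : Type} [AddCommGroup V] [Module ℚ V] [AddCommGroup V'] [Module ℚ V'] :
    ∀ {l : List ℕ} {g : Finset ℕ → V} {g' : Finset ℕ → V'}, St V l g → St V' l g' →
      St (V ⊗[ℚ] V') l (fun T => g T ⊗ₜ[ℚ] g' T)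
  | [], _, _, _, _ => trivial
  | i :: l, g, g', h, h' => by
    obtain ⟨A, g0, h0, hA⟩ := h
    obtain ⟨A', g0', h0', hA'⟩ := h'
    refine ⟨fun b => TensorProduct.congr (A b) (A' b), fun T => g0 T ⊗ₜ[ℚ] g0' T, St.tmul h0 h0', ?_⟩
    intro T hT
    show g T ⊗ₜ[ℚ] g' T = TensorProduct.congr (A (decide (i ∈ T))) (A' (decide (i ∈ T)))
      (g0 (T.erase i) ⊗ₜ[ℚ] g0' (T.erase i))
    rw [TensorProduct.congr_tmul, hA T hT, hA' T hT]

/-- `TensorProduct ℚ V V'`, `TensorProduct.congr`, state `g T ⊗ₜ g' T`, functional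
`LinearMap.mul' ∘ TensorProduct.map φ φ'`. -/
theorem Rep.mul {W W' : ℕ} {l : List ℕ} {f f' : Finset ℕ → ℚ} (h : Rep W l f) (h' : Rep W' l f') :
    Rep (W * W') l (fun T => f T * f' T) := by
  obtain ⟨V, i1, i2, i3, φ, g, hW, hg, hf⟩ := h
  obtain ⟨V', i1', i2', i3', φ', g', hW', hg', hf'⟩ := h'
  refine ⟨V ⊗[ℚ] V', inferInstance, inferInstance, inferInstance,
    (LinearMap.mul' ℚ ℚ).comp (TensorProduct.map φ φ'), fun T => g T ⊗ₜ[ℚ] g' T, ?_,
    St.tmul hg hg', ?_⟩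
  · rw [Module.finrank_tensorProduct]
    exact Nat.mul_le_mul hW hW'
  · intro T hT
    simp only [LinearMap.comp_apply, TensorProduct.map_tmul, LinearMap.mul'_apply]
    rw [hf T hT, hf' T hT]

end Pool.Agent.J6H25.CR
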