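import Pool.Agent.J6H25.CR.Defs

/-!
# Reversal of the order of the variables in `Rep` (module RB1, helper20)
-/

set_option autoImplicit false

namespace Pool.Agent.J6H25.CR

open Pool.Agent.J6H25.PIT

/-- the general form: states of `l` in `V` and states of `m` in the dual space of `V` -/
theorem rep_reverse_aux {V : Type} [AddCommGroup V] [Module ℚ V] [Module.Finite ℚ V] :
    ∀ (l m : List ℕ) (g : Finset ℕ → V) (Φ : Finset ℕ → Module.Dual ℚ V),
      (l ++ m).Nodup → St V l g → St (Module.Dual ℚ V) m Φ →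
      Rep (Module.finrank ℚ V) (l.reverse ++ m)
        (fun T => Φ (T.filter (· ∈ m)) (g (T.filter (· ∈ l)))) := by
  intro l
  induction l with
  | nil =>
    intro m g Φ _ _ hΦ
    refine ⟨Module.Dual ℚ V, inferInstance, inferInstance, inferInstance,
      Module.Dual.eval ℚ V (g ∅), Φ, ?_, ?_, ?_⟩
    · exact le_of_eq Subspace.dual_finrank_eq
    · simpa using hΦ
    · intro T hT
      have h1 : T.filter (· ∈ m) = T := by
        refine Finset.filter_true_of_mem fun j hj => ?_
        simpa using hT j hj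
      have h2 : T.filter (· ∈ ([] : List ℕ)) = ∅ := by
        refine Finset.filter_false_of_mem fun j _ => ?_
        simp
      show Φ (T.filter (· ∈ m)) (g (T.filter (· ∈ ([] : List ℕ)))) = Φ T (g ∅)
      rw [h1, h2]
  | cons i l ih =>
    intro m g Φ hnd hg hΦ
    obtain ⟨A, g', hg', hgA⟩ := hg
    have hi : i ∉ l ++ m := by
      have h := hnd
      rw [List.cons_append, List.nodup_cons] at h
      exact h.1
    have hil : i ∉ l := fun h => hi (List.mem_append_left _ h)
    have him : i ∉ m := fun h => hi (List.mem_append_right _ h)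
    have hnd' : (l ++ i :: m).Nodup := by
      rw [List.nodup_middle]
      simpa using hnd
    have hΦ' : St (Module.Dual ℚ V) (i :: m)
        (fun T => (A (decide (i ∈ T))).dualMap (Φ (T.erase i))) :=
      ⟨fun b => (A b).dualMap, Φ, hΦ, fun T _ => rfl⟩
    obtain ⟨V', i1, i2, i3, φ, s, h1, h2, h3⟩ := ih (i :: m) g' _ hnd' hg' hΦ'
    refine ⟨V', i1, i2, i3, φ, s, h1, ?_, ?_⟩
    · simpa using h2
    · intro T hT
      have e0 := h3 T (fun j hj => by simpa using hT j hj)
      rw [← e0]
      have e1 : (T.filter (· ∈ i :: m)).erase i = T.filter (· ∈ m) := by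
        ext j
        simp only [Finset.mem_erase, Finset.mem_filter, List.mem_cons]
        constructor
        · rintro ⟨h, h', h'' | h''⟩
          · exact absurd h'' h
          · exact ⟨h', h''⟩
        · rintro ⟨h, h'⟩
          exact ⟨fun e => him (e ▸ h'), h, Or.inr h'⟩
      have e2 : (T.filter (· ∈ i :: l)).erase i = T.filter (· ∈ l) := by
        ext j
        simp only [Finset.mem_erase, Finset.mem_filter, List.mem_cons]
        constructor
        · rintro ⟨h, h', h'' | h''⟩
          · exact absurd h'' h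
          · exact ⟨h', h''⟩
        · rintro ⟨h, h'⟩
          exact ⟨fun e => hil (e ▸ h'), h, Or.inr h'⟩
      have e3 : decide (i ∈ T.filter (· ∈ i :: m)) = decide (i ∈ T) := by
        simp
      have e4 : decide (i ∈ T.filter (· ∈ i :: l)) = decide (i ∈ T) := by
        simp
      show Φ (T.filter (· ∈ m)) (g (T.filter (· ∈ i :: l))) =
        (A (decide (i ∈ T.filter (· ∈ i :: m)))).dualMap
          (Φ ((T.filter (· ∈ i :: m)).erase i)) (g' (T.filter (· ∈ l)))
      rw [hgA (T.filter (· ∈ i :: l)) (fun j hj => (Finset.mem_filter.mp hj).2), e1, e2, e3, e4]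
      rfl

/-- Generalise: if `St V l g` and `Φ : Finset ℕ → Module.Dual ℚ V` has `St (Module.Dual ℚ V) m Φ`,
`(l ++ m).Nodup`, then `T ↦ Φ (T ∩ m) (g (T ∩ l))` is a `Rep (finrank V) (l.reverse ++ m)`. -/
theorem Rep.reverse {W : ℕ} {l : List ℕ} {f : Finset ℕ → ℚ} (hl : l.Nodup) (h : Rep W l f) :
    Rep W l.reverse f := by
  obtain ⟨V, i1, i2, i3, φ, g, h1, h2, h3⟩ := h
  obtain ⟨V', j1, j2, j3, φ', g', k1, k2, k3⟩ :=
    rep_reverse_aux l [] g (fun _ => φ) (by simpa using hl) h2 trivial
  refine ⟨V', j1, j2, j3, φ', g', k1.trans h1, by simpa using k2, fun T hT => ?_⟩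
  have hT' : ∀ j ∈ T, j ∈ l := fun j hj => by simpa using hT j hj
  rw [← k3 T (fun j hj => by simpa using hT j hj), h3 T hT']
  have e : T.filter (· ∈ l) = T := Finset.filter_true_of_mem hT'
  show φ (g T) = φ (g (T.filter (· ∈ l)))
  rw [e]

end Pool.Agent.J6H25.CR
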