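import Pool.Agent.J6H25.CR.Defs

/-!
# Products of invertible matrices: sublists
-/

set_option autoImplicit false

namespace Pool.Agent.J6H25.CR

open Pool.Agent.J6H25.PIT

theorem St.comp_equiv {V : Type} [AddCommGroup V] [Module ℚ V] (B : V ≃ₗ[ℚ] V) {l : List ℕ}
    {g : Finset ℕ → V} (h : St V l g) : St V l (fun T => B (g T)) := by
  cases l with
  | nil => trivial
  | cons i l =>
    obtain ⟨A, g', hg', h1⟩ := h
    refine ⟨fun b => (A b).trans B, g', hg', fun T hT => ?_⟩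
    show B (g T) = B (A (decide (i ∈ T)) (g' (T.erase i)))
    rw [h1 T hT]

theorem St.sublist {V : Type} [AddCommGroup V] [Module ℚ V] {l l' : List ℕ} (hs : l'.Sublist l) :
    l.Nodup → ∀ {g : Finset ℕ → V}, St V l g →
      ∃ g' : Finset ℕ → V, St V l' g' ∧ ∀ T : Finset ℕ, (∀ j ∈ T, j ∈ l') → g T = g' T := by
  induction hs with
  | slnil => exact fun _ g h => ⟨g, h, fun _ _ => rfl⟩
  | @cons l₁ l₂ a hs ih =>
    intro hl g h
    obtain ⟨A, g₀, hg₀, h1⟩ := h
    obtain ⟨g₁, hg₁, h2⟩ := ih (List.nodup_cons.1 hl).2 hg₀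
    refine ⟨fun T => A false (g₁ T), hg₁.comp_equiv (A false), fun T hT => ?_⟩
    have ha : a ∉ T := fun h => (List.nodup_cons.1 hl).1 (hs.subset (hT a h))
    rw [h1 T fun j hj => List.mem_cons_of_mem _ (hs.subset (hT j hj)), Finset.erase_eq_of_notMem ha,
      h2 T hT, decide_eq_false ha]
  | @cons_cons l₁ l₂ a hs ih =>
    intro hl g h
    obtain ⟨A, g₀, hg₀, h1⟩ := h
    obtain ⟨g₁, hg₁, h2⟩ := ih (List.nodup_cons.1 hl).2 hg₀
    refine ⟨fun T => A (decide (a ∈ T)) (g₁ (T.erase a)), ⟨A, g₁, hg₁, fun _ _ => rfl⟩,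
      fun T hT => ?_⟩
    rw [h1 T fun j hj => (hs.cons_cons a).subset (hT j hj), h2 (T.erase a) fun j hj => ?_]
    obtain ⟨hja, hj⟩ := Finset.mem_erase.1 hj
    rcases List.mem_cons.1 (hT j hj) with h | h
    · exact absurd h hja
    · exact h

/-- Vector version: if `l'` is a sublist of the nodup list `l` and `St V l g`, then there is `g'`
with `St V l' g'` and `g T = g' T` for all `T ⊆ l'`. -/
theorem Rep.sublist {W : ℕ} {l l' : List ℕ} {f : Finset ℕ → ℚ} (hl : l.Nodup) (h : Rep W l f)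
    (hs : l'.Sublist l) : Rep W l' f := by
  obtain ⟨V, i1, i2, i3, φ, g, hW, hg, h1⟩ := h
  obtain ⟨g', hg', h2⟩ := St.sublist hs hl hg
  refine ⟨V, i1, i2, i3, φ, g', hW, hg', fun T hT => ?_⟩
  rw [h1 T fun j hj => hs.subset (hT j hj), h2 T hT]

end Pool.Agent.J6H25.CR
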