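import Pool.Agent.J6H25.CR.Defs

/-! # CR-RB3: the dimension of the span grows by one with each variable (helper84) -/

set_option autoImplicit false

namespace Pool.Agent.J6H25.CR

open Pool.Agent.J6H25.PIT

namespace RB3

/-- the span of the states -/
def Sp {V : Type} [AddCommGroup V] [Module ℚ V] (l : List ℕ) (g : Finset ℕ → V) :
    Submodule ℚ V := Submodule.span ℚ {v | ∃ T : Finset ℕ, (∀ j ∈ T, j ∈ l) ∧ v = g T}

lemma mem_Sp {V : Type} [AddCommGroup V] [Module ℚ V] {l : List ℕ} {g : Finset ℕ → V}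
    {T : Finset ℕ} (hT : ∀ j ∈ T, j ∈ l) : g T ∈ Sp l g := Submodule.subset_span ⟨T, hT, rfl⟩

lemma key {V : Type} [AddCommGroup V] [Module ℚ V] [Module.Finite ℚ V] : ∀ (l : List ℕ),
    l.Nodup → ∀ (φ : V →ₗ[ℚ] ℚ) (g : Finset ℕ → V), St V l g → φ (g ∅) ≠ 0 →
    (∀ T : Finset ℕ, T ≠ ∅ → (∀ j ∈ T, j ∈ l) → φ (g T) = 0) →
    l.length < Module.finrank ℚ (Sp l g) := by
  intro l
  induction l with
  | nil =>
    intro _ φ g _ h0 _
    have h1 : g ∅ ∈ Sp [] g := mem_Sp (by simp)
    have h2 : g ∅ ≠ 0 := by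
      intro h
      rw [h, map_zero] at h0
      exact h0 rfl
    have h3 : Nontrivial (Sp [] g) :=
      ⟨⟨⟨g ∅, h1⟩, 0, fun h => h2 (congrArg Subtype.val h)⟩⟩
    simpa using Module.finrank_pos (R := ℚ) (M := Sp [] g)
  | cons i l ih =>
    intro hnd φ g hg h0 h1
    obtain ⟨A, g', hg', hA⟩ := hg
    have hi : i ∉ l := (List.nodup_cons.1 hnd).1
    have hnd' : l.Nodup := (List.nodup_cons.1 hnd).2
    have hiT : ∀ T : Finset ℕ, (∀ j ∈ T, j ∈ l) → i ∉ T := fun T hT h => hi (hT i h)
    have hF : ∀ T : Finset ℕ, (∀ j ∈ T, j ∈ l) → g T = A false (g' T) := by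
      intro T hT
      rw [hA T (fun j hj => List.mem_cons_of_mem _ (hT j hj)), decide_eq_false (hiT T hT),
        Finset.erase_eq_of_notMem (hiT T hT)]
    have hTr : ∀ T : Finset ℕ, (∀ j ∈ T, j ∈ l) → g (insert i T) = A true (g' T) := by
      intro T hT
      rw [hA (insert i T), decide_eq_true (Finset.mem_insert_self i T),
        Finset.erase_insert (hiT T hT)]
      intro j hj
      rcases Finset.mem_insert.1 hj with rfl | hj
      · exact List.mem_cons_self
      · exact List.mem_cons_of_mem _ (hT j hj)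
    have hIH := ih hnd' (φ.comp (A false).toLinearMap) g' hg'
      (by
        rw [hF ∅ (by simp)] at h0
        exact h0)
      (by
        intro T hT0 hT
        have := h1 T hT0 (fun j hj => List.mem_cons_of_mem _ (hT j hj))
        rw [hF T hT] at this
        exact this)
    have hle : (Sp l g').map (A true).toLinearMap ≤ Sp (i :: l) g := by
      unfold Sp
      rw [Submodule.map_span, Submodule.span_le]
      rintro v ⟨w, ⟨T, hT, rfl⟩, rfl⟩
      refine Submodule.subset_span ⟨insert i T, ?_, (hTr T hT).symm⟩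
      intro j hj
      rcases Finset.mem_insert.1 hj with rfl | hj
      · exact List.mem_cons_self
      · exact List.mem_cons_of_mem _ (hT j hj)
    have hker : (Sp l g').map (A true).toLinearMap ≤ LinearMap.ker φ := by
      unfold Sp
      rw [Submodule.map_span, Submodule.span_le]
      rintro v ⟨w, ⟨T, hT, rfl⟩, rfl⟩
      show φ _ = 0
      have h2 := h1 (insert i T) (Finset.insert_ne_empty i T) (by
        intro j hj
        rcases Finset.mem_insert.1 hj with rfl | hj
        · exact List.mem_cons_self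
        · exact List.mem_cons_of_mem _ (hT j hj))
      rw [hTr T hT] at h2
      exact h2
    have hlt : (Sp l g').map (A true).toLinearMap < Sp (i :: l) g := by
      refine lt_of_le_of_ne hle fun h => ?_
      have h2 : g ∅ ∈ Sp (i :: l) g := mem_Sp (by simp)
      rw [← h] at h2
      exact h0 (hker h2)
    have h3 := Submodule.finrank_lt_finrank_of_lt hlt
    have h4 : Module.finrank ℚ ((Sp l g').map (A true).toLinearMap) =
        Module.finrank ℚ (Sp l g') := LinearEquiv.finrank_map_eq (A true) (Sp l g')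
    rw [h4] at h3
    rw [List.length_cons]
    omega

end RB3

theorem Rep.length_lt {W : ℕ} {l : List ℕ} {f : Finset ℕ → ℚ} (hl : l.Nodup) (h : Rep W l f)
    (h0 : f ∅ ≠ 0) (h1 : ∀ T : Finset ℕ, T ≠ ∅ → (∀ j ∈ T, j ∈ l) → f T = 0) :
    l.length < W := by
  obtain ⟨V, _, _, _, φ, g, hW, hg, hf⟩ := h
  have h2 := RB3.key l hl φ g hg (by rw [← hf ∅ (by simp)]; exact h0)
    (fun T hT hTl => by rw [← hf T hTl]; exact h1 T hT hTl)
  exact h2.trans_le ((Submodule.finrank_le _).trans hW)

end Pool.Agent.J6H25.CR
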