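import Pool.Agent.J6H25.CR.Defs

/-!
# Contexts and chains: basic facts
-/

set_option autoImplicit false

namespace Pool.Agent.J6H25.CR

open Pool.Agent.J6H25.PIT

theorem plug_nil (G : Ex) : plug [] G = G := rfl

theorem plug_cons (s : Step) (hs : List Step) (G : Ex) : plug (s :: hs) G = s.ap (plug hs G) := rfl

theorem plug_append (hs hs' : List Step) (G : Ex) : plug (hs ++ hs') G = plug hs (plug hs' G) := by
  unfold plug
  rw [List.foldr_append]

theorem ho_nil (i : ℕ) : ho [] i = 0 := rfl

theorem ho_cons (s : Step) (hs : List Step) (i : ℕ) : ho (s :: hs) i = s.2.2.occ i + ho hs i := rfl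

theorem ho_append (hs hs' : List Step) (i : ℕ) : ho (hs ++ hs') i = ho hs i + ho hs' i := by
  unfold ho
  rw [List.map_append, List.sum_append]

theorem occ_ap (s : Step) (G : Ex) (i : ℕ) : (s.ap G).occ i = s.2.2.occ i + G.occ i := by
  unfold Step.ap
  split_ifs <;> simp only [Ex.occ] <;> omega

theorem occ_plug (hs : List Step) (G : Ex) (i : ℕ) : (plug hs G).occ i = ho hs i + G.occ i := by
  induction hs with
  | nil => rw [plug_nil, ho_nil, zero_add]
  | cons s hs ih => rw [plug_cons, occ_ap, ih, ho_cons, add_assoc]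

theorem mem_subs_ap (s : Step) (G : Ex) : G ∈ (s.ap G).subs := by
  unfold Step.ap
  split_ifs
  · simp [Ex.subs, Ex.mem_subs_self]
  · simp [Ex.subs, Ex.mem_subs_self]

theorem mem_subs_plug (hs : List Step) (G : Ex) : G ∈ (plug hs G).subs := by
  induction hs with
  | nil => exact G.mem_subs_self
  | cons s hs ih =>
    rw [plug_cons]
    exact Ex.subs_trans (mem_subs_ap s _) ih

theorem Seg.exists_plug {G' E : Ex} {us : List ℕ} (h : Seg G' E us) :
    ∃ hs, E = CR.plug hs G' := by
  induction h with
  | nil hs => exact ⟨hs, rfl⟩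
  | @cons hs G us u h1 h2 h3 ih =>
    obtain ⟨hs', rfl⟩ := ih
    exact ⟨hs ++ hs', (plug_append _ _ _).symm⟩

/-- all variables of the chain occur in the context -/
theorem Seg.lt {G' E : Ex} {us : List ℕ} (h : Seg G' E us) : ∀ u ∈ us, G'.occ u < E.occ u := by
  induction h with
  | nil hs => intro u hu; cases hu
  | @cons hs G us u h1 h2 h3 ih =>
    intro v hv
    rw [occ_plug]
    rcases List.mem_cons.1 hv with rfl | hv
    · obtain ⟨hs', rfl⟩ := h3.exists_plug
      rw [occ_plug]
      omega
    · have := ih v hv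
      omega

theorem Seg.nodup {G' E : Ex} {us : List ℕ} (h : Seg G' E us) : us.Nodup := by
  induction h with
  | nil hs => exact List.nodup_nil
  | @cons hs G us u h1 h2 h3 ih => exact List.nodup_cons.2 ⟨fun hu => h1 (h2 u hu), ih⟩

theorem Seg.plug {G' E : Ex} {us : List ℕ} (h : Seg G' E us) {hs : List Step}
    (hhs : ∀ w ∈ us, ho hs w = 0) : Seg G' (plug hs E) us := by
  cases h with
  | nil hs' =>
    rw [← plug_append]
    exact Seg.nil _
  | @cons hs' G us u h1 h2 h3 =>
    rw [← plug_append]
    refine Seg.cons ?_ ?_ h3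
    · rw [ho_append]; omega
    · intro w hw
      rw [ho_append, h2 w hw, hhs w (List.mem_cons_of_mem _ hw)]

theorem Seg.sublist {G' E : Ex} {us us' : List ℕ} (h : Seg G' E us) (h' : us'.Sublist us) :
    Seg G' E us' := by
  induction h generalizing us' with
  | nil hs =>
    rw [List.sublist_nil] at h'
    subst h'
    exact Seg.nil _
  | @cons hs G us u h1 h2 h3 ih =>
    cases h' with
    | cons _ h' => exact (ih h').plug fun w hw => h2 w (h'.subset hw)
    | cons_cons _ h' => exact Seg.cons h1 (fun w hw => h2 w (h'.subset hw)) (ih h')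

/-- the chain is cut after the first variables (`us = []`: `G = E`, `hs = []`) -/
theorem Seg.split {G' E : Ex} {us vs : List ℕ} (h : Seg G' E (us ++ vs)) :
    ∃ G hs, E = CR.plug hs G ∧ Seg G E us ∧ (∀ u ∈ us, ho hs u ≠ 0) ∧ (∀ w ∈ vs, ho hs w = 0) ∧
      Seg G' G vs := by
  induction us generalizing E with
  | nil =>
    exact ⟨E, [], rfl, Seg.nil [], by simp, fun w _ => rfl, h⟩
  | cons u us ih =>
    rw [List.cons_append] at h
    cases h with
    | @cons hs G _ _ h1 h2 h3 =>
      obtain ⟨G₁, hs₁, rfl, h4, h5, h6, h7⟩ := ih h3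
      refine ⟨G₁, hs ++ hs₁, (plug_append _ _ _).symm, Seg.cons h1 (fun w hw =>
        h2 w (List.mem_append_left _ hw)) h4, ?_, ?_, h7⟩
      · intro v hv
        rw [ho_append]
        rcases List.mem_cons.1 hv with rfl | hv
        · omega
        · have := h5 v hv
          omega
      · intro w hw
        rw [ho_append, h6 w hw, h2 w (List.mem_append_right _ hw)]

theorem Sep.exists_plug {B E : Ex} {us : List ℕ} (h : Sep B E us) : ∃ hs, E = CR.plug hs B := by
  induction h with
  | nil => exact ⟨[], rfl⟩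
  | @cons hs G us u h1 h2 h3 h4 ih =>
    obtain ⟨hs', rfl⟩ := ih
    exact ⟨hs ++ hs', (plug_append _ _ _).symm⟩

end Pool.Agent.J6H25.CR
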