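import Pool.Agent.J6H25.CR.Defs

/-!
# Module RC1: monotone sublists
-/

set_option autoImplicit false

namespace Pool.Agent.J6H25.CR

/-- The version with two parameters. -/
theorem exists_monotone_sublist_aux (p : ℕ) : ∀ q : ℕ, ∃ N : ℕ, ∀ l : List ℕ, l.Nodup →
    N ≤ l.length →
    (∃ l' : List ℕ, l'.Sublist l ∧ l'.length = p ∧ l'.Pairwise (· < ·)) ∨
    (∃ l' : List ℕ, l'.Sublist l ∧ l'.length = q ∧ l'.Pairwise (· > ·)) := by
  induction p with
  | zero =>
    intro q
    exact ⟨0, fun l _ _ => Or.inl ⟨[], List.nil_sublist _, rfl, List.Pairwise.nil⟩⟩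
  | succ p ihp =>
    intro q
    induction q with
    | zero => exact ⟨0, fun l _ _ => Or.inr ⟨[], List.nil_sublist _, rfl, List.Pairwise.nil⟩⟩
    | succ q ihq =>
      obtain ⟨N1, h1⟩ := ihp (q + 1)
      obtain ⟨N2, h2⟩ := ihq
      refine ⟨N1 + N2 + 1, fun l hl hN => ?_⟩
      cases l with
      | nil => simp at hN
      | cons a t =>
        have hlt := hl
        rw [List.nodup_cons] at hlt
        obtain ⟨ha, ht⟩ := hlt
        have hlen : t.length = (t.filter fun x => decide (a < x)).length +
            (t.filter fun x => !decide (a < x)).length := List.length_eq_length_filter_add _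
        rw [List.length_cons] at hN
        by_cases hc : N1 ≤ (t.filter fun x => decide (a < x)).length
        · rcases h1 _ (ht.filter _) hc with ⟨l', hs, hlen', hp⟩ | ⟨l', hs, hlen', hp⟩
          · left
            refine ⟨a :: l', ?_, by rw [List.length_cons, hlen'], ?_⟩
            · exact List.Sublist.cons_cons a (hs.trans List.filter_sublist)
            · rw [List.pairwise_cons]
              refine ⟨fun x hx => ?_, hp⟩
              have := List.mem_filter.1 (hs.subset hx)
              exact of_decide_eq_true this.2
          · right
            exact ⟨l', (hs.trans List.filter_sublist).trans (List.sublist_cons_self a t), hlen', hp⟩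
        · have hc2 : N2 ≤ (t.filter fun x => !decide (a < x)).length := by omega
          rcases h2 _ (ht.filter _) hc2 with ⟨l', hs, hlen', hp⟩ | ⟨l', hs, hlen', hp⟩
          · left
            exact ⟨l', (hs.trans List.filter_sublist).trans (List.sublist_cons_self a t), hlen', hp⟩
          · right
            refine ⟨a :: l', ?_, by rw [List.length_cons, hlen'], ?_⟩
            · exact List.Sublist.cons_cons a (hs.trans List.filter_sublist)
            · rw [List.pairwise_cons]
              refine ⟨fun x hx => ?_, hp⟩
              have hx' := List.mem_filter.1 (hs.subset hx)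
              have hx1 : ¬ a < x := by
                intro hax
                have := hx'.2
                simp [hax] at this
              have hx2 : x ≠ a := by
                rintro rfl
                exact ha hx'.1
              change a > x
              omega

/-- A weak form of the Erdős–Szekeres theorem. -/
theorem exists_monotone_sublist (n : ℕ) : ∃ N : ℕ, ∀ l : List ℕ, l.Nodup → N ≤ l.length →
    ∃ l' : List ℕ, l'.Sublist l ∧ l'.length = n ∧
      (l'.Pairwise (· < ·) ∨ l'.Pairwise (· > ·)) := by
  obtain ⟨N, h⟩ := exists_monotone_sublist_aux n n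
  refine ⟨N, fun l hl hN => ?_⟩
  rcases h l hl hN with ⟨l', hs, hlen, hp⟩ | ⟨l', hs, hlen, hp⟩
  · exact ⟨l', hs, hlen, Or.inl hp⟩
  · exact ⟨l', hs, hlen, Or.inr hp⟩

end Pool.Agent.J6H25.CR
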