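import Pool.Agent.J6H25.CR.RC0

/-!
# Chains in expressions: existence (module RC2)
-/

set_option autoImplicit false

namespace Pool.Agent.J6H25.CR

open Pool.Agent.J6H25.PIT

/-- the second alternative: at least `m` variables occur in both children of a node -/
def Alt2 (m : ℕ) (E : Ex) (X : Finset ℕ) : Prop :=
  ∃ (hs : List Step) (o : Op) (s t : Ex) (Y : Finset ℕ), E = CR.plug hs (Ex.op o s t) ∧ Y ⊆ X ∧
    m ≤ Y.card ∧ ∀ w ∈ Y, ho hs w = 0 ∧ s.occ w ≠ 0 ∧ t.occ w ≠ 0

/-- the bound -/
def fb (m : ℕ) : ℕ → ℕ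
  | 0 => 0
  | N + 1 => 2 * fb m N + m + 2

theorem alt2_ap {m : ℕ} (st : Step) {G : Ex} {X X' : Finset ℕ} (h : Alt2 m G X') (hX : X' ⊆ X)
    (h0 : ∀ w ∈ X', st.2.2.occ w = 0) : Alt2 m (st.ap G) X := by
  obtain ⟨hs, o, s, t, Y, rfl, h1, h2, h3⟩ := h
  refine ⟨st :: hs, o, s, t, Y, rfl, h1.trans hX, h2, fun w hw => ?_⟩
  rw [ho_cons, h0 w (h1 hw), zero_add]
  exact h3 w hw

theorem ho_one (st : Step) (w : ℕ) : ho [st] w = st.2.2.occ w := by
  rw [ho_cons, ho_nil, add_zero]

/-- one step of the recursion: the child `G` has more than enough variables which occur only in it,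
and the sibling contains some variable -/
theorem seg_step {m N : ℕ} (st : Step) {G : Ex} {X X' : Finset ℕ} (hX : X' ⊆ X)
    (h0 : ∀ w ∈ X', st.2.2.occ w = 0) {u : ℕ} (hu : u ∈ X) (hu0 : st.2.2.occ u ≠ 0)
    (h : (∃ (us : List ℕ) (G' : Ex), Seg G' G us ∧ (∀ u ∈ us, u ∈ X') ∧ us.length = N) ∨
      Alt2 m G X') :
    (∃ (us : List ℕ) (G' : Ex), Seg G' (st.ap G) us ∧ (∀ u ∈ us, u ∈ X) ∧ us.length = N + 1) ∨
      Alt2 m (st.ap G) X := by
  rcases h with ⟨us, G', h1, h2, h3⟩ | h
  · left
    refine ⟨u :: us, G', ?_, ?_, by rw [List.length_cons, h3]⟩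
    · have h4 : Seg G' (CR.plug [st] G) (u :: us) := Seg.cons (by rw [ho_one]; exact hu0)
        (fun w hw => by rw [ho_one]; exact h0 w (h2 w hw)) h1
      exact h4
    · intro w hw
      rcases List.mem_cons.1 hw with rfl | hw
      · exact hu
      · exact hX (h2 w hw)
  · right
    exact alt2_ap st h hX h0

/-- the node is passed: all variables occur only in the child -/
theorem seg_pass {m N : ℕ} (st : Step) {G : Ex} {X : Finset ℕ}
    (h0 : ∀ w ∈ X, st.2.2.occ w = 0)
    (h : (∃ (us : List ℕ) (G' : Ex), Seg G' G us ∧ (∀ u ∈ us, u ∈ X) ∧ us.length = N) ∨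
      Alt2 m G X) :
    (∃ (us : List ℕ) (G' : Ex), Seg G' (st.ap G) us ∧ (∀ u ∈ us, u ∈ X) ∧ us.length = N) ∨
      Alt2 m (st.ap G) X := by
  rcases h with ⟨us, G', h1, h2, h3⟩ | h
  · left
    exact ⟨us, G', h1.plug (hs := [st]) fun w hw => by rw [ho_one]; exact h0 w (h2 w hw), h2, h3⟩
  · right
    exact alt2_ap st h (Finset.Subset.refl _) h0

theorem exists_seg_aux (m : ℕ) (hm : 1 ≤ m) (N : ℕ) : ∀ (E : Ex) (X : Finset ℕ),
    (∀ i ∈ X, E.occ i ≠ 0) → fb m N ≤ X.card →
    (∃ (us : List ℕ) (G' : Ex), Seg G' E us ∧ (∀ u ∈ us, u ∈ X) ∧ us.length = N) ∨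
    Alt2 m E X := by
  induction N with
  | zero =>
    intro E X _ _
    exact Or.inl ⟨[], E, Seg.nil [], by simp, rfl⟩
  | succ N ihN =>
    intro E
    induction E with
    | var j =>
      intro X hX hc
      exfalso
      have h1 : X ⊆ {j} := by
        intro i hi
        have := hX i hi
        simp only [Ex.occ] at this
        rw [Finset.mem_singleton]
        by_contra hij
        exact this (if_neg fun h => hij h.symm)
      have h2 := Finset.card_le_card h1
      rw [Finset.card_singleton] at h2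
      simp only [fb] at hc
      omega
    | num q =>
      intro X hX hc
      exfalso
      have h1 : X = ∅ := by
        rw [Finset.eq_empty_iff_forall_notMem]
        intro i hi
        exact hX i hi rfl
      rw [h1, Finset.card_empty] at hc
      simp only [fb] at hc
      omega
    | op o s t ihs iht =>
      intro X hX hc
      have hX' : ∀ i ∈ X, s.occ i ≠ 0 ∨ t.occ i ≠ 0 := by
        intro i hi
        have := hX i hi
        simp only [Ex.occ] at this
        omega
      have es : Step.ap (o, true, t) s = Ex.op o s t := rfl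
      have et : Step.ap (o, false, s) t = Ex.op o s t := rfl
      by_cases hA : ∀ i ∈ X, t.occ i = 0
      · rw [← es]
        refine seg_pass (o, true, t) hA (ihs X (fun i hi => ?_) hc)
        have := hX' i hi
        rw [hA i hi] at this
        tauto
      by_cases hB : ∀ i ∈ X, s.occ i = 0
      · rw [← et]
        refine seg_pass (o, false, s) hB (iht X (fun i hi => ?_) hc)
        have := hX' i hi
        rw [hB i hi] at this
        tauto
      push Not at hA hB
      obtain ⟨u, hu, hu0⟩ := hA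
      obtain ⟨v, hv, hv0⟩ := hB
      by_cases hY : m ≤ (X.filter fun i => s.occ i ≠ 0 ∧ t.occ i ≠ 0).card
      · right
        exact ⟨[], o, s, t, _, rfl, Finset.filter_subset _ _, hY, fun w hw =>
          ⟨rfl, (Finset.mem_filter.1 hw).2.1, (Finset.mem_filter.1 hw).2.2⟩⟩
      push Not at hY
      have hcard : X.card ≤ (X.filter fun i => s.occ i ≠ 0 ∧ t.occ i ≠ 0).card +
          ((X.filter fun i => t.occ i = 0).card + (X.filter fun i => s.occ i = 0).card) := by
        refine le_trans (Finset.card_le_card (t := (X.filter fun i => s.occ i ≠ 0 ∧ t.occ i ≠ 0) ∪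
          ((X.filter fun i => t.occ i = 0) ∪ (X.filter fun i => s.occ i = 0))) ?_)
          ((Finset.card_union_le _ _).trans (Nat.add_le_add_left (Finset.card_union_le _ _) _))
        intro i hi
        simp only [Finset.mem_union, Finset.mem_filter]
        by_cases h1 : s.occ i = 0 <;> by_cases h2 : t.occ i = 0 <;> simp [hi, h1, h2]
      simp only [fb] at hc
      by_cases hS : fb m N ≤ (X.filter fun i => t.occ i = 0).card
      · rw [← es]
        refine seg_step (o, true, t) (X' := X.filter fun i => t.occ i = 0)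
          (Finset.filter_subset _ _) (fun w hw => (Finset.mem_filter.1 hw).2) hu hu0
          (ihN s _ (fun i hi => ?_) hS)
        have := hX' i (Finset.mem_filter.1 hi).1
        rw [(Finset.mem_filter.1 hi).2] at this
        tauto
      · rw [← et]
        refine seg_step (o, false, s) (X' := X.filter fun i => s.occ i = 0)
          (Finset.filter_subset _ _) (fun w hw => (Finset.mem_filter.1 hw).2) hv hv0
          (ihN t _ (fun i hi => ?_) (by omega))
        have := hX' i (Finset.mem_filter.1 hi).1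
        rw [(Finset.mem_filter.1 hi).2] at this
        tauto

/-- **Chains exist.** -/
theorem exists_seg (m : ℕ) (hm : 1 ≤ m) (N : ℕ) : ∃ n : ℕ, ∀ (E : Ex) (X : Finset ℕ),
    (∀ i ∈ X, E.occ i ≠ 0) → n ≤ X.card →
    (∃ (us : List ℕ) (G' : Ex), Seg G' E us ∧ (∀ u ∈ us, u ∈ X) ∧ us.length = N) ∨
    (∃ (hs : List Step) (o : Op) (s t : Ex) (Y : Finset ℕ), E = CR.plug hs (Ex.op o s t) ∧ Y ⊆ X ∧
      m ≤ Y.card ∧ ∀ w ∈ Y, ho hs w = 0 ∧ s.occ w ≠ 0 ∧ t.occ w ≠ 0) :=
  ⟨fb m N, fun E X h1 h2 => exists_seg_aux m hm N E X h1 h2⟩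

end Pool.Agent.J6H25.CR
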