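import Pool.Agent.J6H25.CR.RC0

/-!
# Gaps in chains
-/

set_option autoImplicit false

namespace Pool.Agent.J6H25.CR

open Pool.Agent.J6H25.PIT

/-- **Gaps.** If the variable `u` occurs at most `r` times in `E` then a chain of length at least
`(r + 1) * K` has an infix of length at least `K` in whose contexts `u` does not occur. -/
theorem Seg.gap {G' E : Ex} {us : List ℕ} (h : Seg G' E us) {u r K : ℕ} (hr : E.occ u ≤ r)
    (hK : (r + 1) * K ≤ us.length) :
    ∃ (vs : List ℕ) (G₁ G₂ : Ex) (hs hs' : List Step), vs.Sublist us ∧ K ≤ vs.length ∧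
      E = CR.plug hs G₁ ∧ (∀ w ∈ vs, ho hs w = 0) ∧ Seg G₂ G₁ vs ∧ G₂ = CR.plug hs' G' ∧
      G₁.occ u = G₂.occ u := by
  induction r generalizing E us with
  | zero =>
    obtain ⟨hs0, h0⟩ := h.exists_plug
    have h1 := occ_plug hs0 G' u
    rw [← h0] at h1
    refine ⟨us, E, G', [], [], List.Sublist.refl _, by omega, rfl, fun w _ => rfl, h, rfl, by omega⟩
  | succ r ih =>
    have h0 : Seg G' E (us.take K ++ us.drop K) := by rwa [List.take_append_drop]
    obtain ⟨G, hs, rfl, h2, -, h4, h5⟩ := h0.split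
    have h6 : K + (r + 1) * K ≤ us.length := by
      have e : (r + 1 + 1) * K = K + (r + 1) * K := by ring
      rw [← e]
      exact hK
    by_cases hG : G.occ u = (CR.plug hs G).occ u
    · obtain ⟨hs', hG'⟩ := h5.exists_plug
      refine ⟨us.take K, _, G, [], hs', List.take_sublist K us, ?_, rfl, fun w _ => rfl, h2, hG', hG.symm⟩
      rw [List.length_take]
      exact le_min le_rfl ((Nat.le_add_right K ((r + 1) * K)).trans h6)
    · have h7 := occ_plug hs G u
      have h8 : G.occ u ≤ r := by omega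
      have h9 : (r + 1) * K ≤ (us.drop K).length := by
        rw [List.length_drop]
        omega
      obtain ⟨vs, G₁, G₂, hs1, hs2, a1, a2, a3, a4, a5, a6, a7⟩ := ih h5 h8 h9
      refine ⟨vs, G₁, G₂, hs ++ hs1, hs2, a1.trans (List.drop_sublist K us), a2, ?_, ?_, a5, a6, a7⟩
      · rw [plug_append, ← a3]
      · intro w hw
        rw [ho_append, h4 w (a1.subset hw), a4 w hw]

end Pool.Agent.J6H25.CR
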