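import Pool.Agent.J6H25.CR.RD1

/-!
# Separated chains
-/

set_option autoImplicit false

namespace Pool.Agent.J6H25.CR

open Pool.Agent.J6H25.PIT

/-- **Separated chains.** -/
theorem exists_sep (j k q : ℕ) : ∃ N : ℕ, ∀ (E G' : Ex) (us : List ℕ), Seg G' E us →
    (∀ (G : Ex) (hs : List Step), E = CR.plug hs G →
      (us.filter fun i => decide (j < G.occ i ∧ G.occ i < E.occ i)).length ≤ k) →
    N ≤ us.length →
    ∃ (vs : List ℕ) (B E' : Ex) (hs hs' : List Step), vs.Sublist us ∧ vs.length = q ∧
      E = CR.plug hs E' ∧ (∀ w ∈ vs, ho hs w = 0) ∧ Sep B E' vs ∧ B = CR.plug hs' G' ∧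
      ∀ u ∈ vs, B.occ u ≤ j := by
  induction q with
  | zero =>
    refine ⟨0, fun E G' us hS _ _ => ?_⟩
    obtain ⟨hs', h⟩ := hS.exists_plug
    exact ⟨[], E, E, [], hs', List.nil_sublist _, rfl, rfl, by simp, Sep.nil, h, by simp⟩
  | succ q ih =>
    obtain ⟨Nq, ih⟩ := ih
    refine ⟨(k + 1) + (j + 1) * Nq, fun E G' us hS hH hN => ?_⟩
    obtain ⟨us₁, us₂, rfl, hl⟩ : ∃ us₁ us₂ : List ℕ, us = us₁ ++ us₂ ∧ us₁.length = k + 1 := by
      refine ⟨us.take (k + 1), us.drop (k + 1), (List.take_append_drop _ _).symm, ?_⟩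
      rw [List.length_take]
      apply min_eq_left
      exact le_trans (Nat.le_add_right _ _) hN
    rw [List.length_append, hl] at hN
    have hN2 : (j + 1) * Nq ≤ us₂.length := by omega
    obtain ⟨G, hs₁, hE, -, h1, h2, hS2⟩ := hS.split
    -- a variable which occurs at most `j` times in `G`
    obtain ⟨u, hu, huj⟩ : ∃ u ∈ us₁, G.occ u ≤ j := by
      by_contra hcon
      push Not at hcon
      have h3 := hH G hs₁ hE
      have h4 : us₁.filter (fun i => decide (j < G.occ i ∧ G.occ i < E.occ i)) = us₁ := by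
        rw [List.filter_eq_self]
        intro v hv
        rw [decide_eq_true_iff]
        refine ⟨hcon v hv, ?_⟩
        rw [hE, occ_plug]
        have := h1 v hv
        omega
      rw [List.filter_append, h4, List.length_append, hl] at h3
      omega
    obtain ⟨vs₁, G₁, G₂, hs₂, hs₃, g1, g2, g3, g4, g5, g6, g7⟩ := hS2.gap (u := u) huj hN2
    have hEG : ∀ (F : Ex) (hs : List Step), G₁ = CR.plug hs F →
        E = CR.plug (hs₁ ++ (hs₂ ++ hs)) F := by
      intro F hs hF
      rw [hE, g3, hF, plug_append, plug_append]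
    have hle : ∀ i, G₁.occ i ≤ E.occ i := by
      intro i
      rw [hE, g3, occ_plug, occ_plug]
      omega
    obtain ⟨vs, B, E', hs₄, hs₅, k1, k2, k3, k4, k5, k6, k7⟩ := ih G₁ G₂ vs₁ g5 (by
      intro F hs hF
      refine le_trans ?_ (hH F _ (hEG F hs hF))
      have s1 : (vs₁.filter fun i => decide (j < F.occ i ∧ F.occ i < E.occ i)).Sublist
          ((us₁ ++ us₂).filter fun i => decide (j < F.occ i ∧ F.occ i < E.occ i)) :=
        (g1.trans (List.sublist_append_right _ _)).filter _
      refine le_trans ?_ s1.length_le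
      rw [← List.countP_eq_length_filter, ← List.countP_eq_length_filter]
      refine List.countP_mono_left fun i _ hi => ?_
      rw [decide_eq_true_iff] at hi ⊢
      exact ⟨hi.1, lt_of_lt_of_le hi.2 (hle i)⟩) g2
    have eE' : E'.occ u = B.occ u ∧ B.occ u ≤ j := by
      obtain ⟨hs₆, h6⟩ := k5.exists_plug
      have a1 : G₁.occ u = ho hs₄ u + E'.occ u := by rw [k3, occ_plug]
      have a2 : E'.occ u = ho hs₆ u + B.occ u := by rw [h6, occ_plug]
      have a3 : B.occ u = ho hs₅ u + G₂.occ u := by rw [k6, occ_plug]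
      have a4 : G.occ u = ho hs₂ u + G₁.occ u := by rw [g3, occ_plug]
      constructor <;> omega
    refine ⟨u :: vs, B, E, [], hs₅ ++ hs₃, ?_, by rw [List.length_cons, k2], rfl, fun w _ => rfl,
      ?_, ?_, ?_⟩
    · have s1 : [u].Sublist us₁ := List.singleton_sublist.2 hu
      exact s1.append (k1.trans g1)
    · rw [hEG E' hs₄ k3]
      refine Sep.cons ?_ ?_ eE'.1 k5
      · rw [ho_append]
        have := h1 u hu
        omega
      · intro w hw
        have w1 := k1.subset hw
        have w2 := g1.subset w1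
        rw [ho_append, ho_append, h2 w w2, g4 w w1, k4 w hw]
    · rw [k6, g6, plug_append]
    · intro v hv
      rcases List.mem_cons.1 hv with rfl | hv
      · exact eE'.2
      · exact k7 v hv

end Pool.Agent.J6H25.CR
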