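import Pool.Agent.J6H25.CR.RC0

/-!
# Values of contexts and of separated chains (helper72)
-/

set_option autoImplicit false

namespace Pool.Agent.J6H25.CR

open Pool.Agent.J6H25.PIT

/-- the good property for subexpressions -/
theorem Gd.of_mem {a c : ℕ → ℚ} {X : Finset ℕ} {E F : Ex} (hE : Gd a c X E) (hF : F ∈ E.subs) :
    Gd a c X F := fun s t hst => hE s t (Ex.subs_trans hF hst)

theorem eval_pt_congr (a c : ℕ → ℚ) (D : Ex) {T T' : Finset ℕ}
    (h : ∀ i, D.occ i ≠ 0 → (i ∈ T ↔ i ∈ T')) : D.eval (pt a c T) = D.eval (pt a c T') := by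
  refine Ex.eval_congr fun i hi => ?_
  unfold pt
  by_cases h1 : i ∈ T
  · rw [if_pos h1, if_pos ((h i hi).1 h1)]
  · rw [if_neg h1, if_neg fun h2 => h1 ((h i hi).2 h2)]

/-- The value of one step. -/
theorem ap_eval (a c : ℕ → ℚ) (X : Finset ℕ) (s : Step) (H : Ex) (hG : Gd a c X (s.ap H)) :
    ∃ x y : Finset ℕ → ℚ, (∀ T ⊆ X, x T ≠ 0) ∧
      (∀ T ⊆ X, (s.ap H).eval (pt a c T) = x T * H.eval (pt a c T) + y T) ∧
      ∀ T T' : Finset ℕ, (∀ i, s.2.2.occ i ≠ 0 → (i ∈ T ↔ i ∈ T')) → x T = x T' ∧ y T = y T' := by
  obtain ⟨o, b, D⟩ := s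
  cases b
  · -- the hole is on the right
    cases o
    · refine ⟨fun _ => 1, fun T => D.eval (pt a c T), fun T _ => one_ne_zero, fun T _ => ?_,
        fun T T' h => ⟨rfl, eval_pt_congr a c D h⟩⟩
      simp only [Step.ap, Bool.false_eq_true, if_false, Ex.eval, Op.ap]
      ring
    · refine ⟨fun _ => -1, fun T => D.eval (pt a c T), fun T _ => by norm_num, fun T _ => ?_,
        fun T T' h => ⟨rfl, eval_pt_congr a c D h⟩⟩
      simp only [Step.ap, Bool.false_eq_true, if_false, Ex.eval, Op.ap]
      ring
    · refine ⟨fun T => D.eval (pt a c T), fun _ => 0, fun T hT => ?_, fun T _ => ?_,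
        fun T T' h => ⟨eval_pt_congr a c D h, rfl⟩⟩
      · exact (hG D H (Ex.mem_subs_self _) T hT).1
      · simp only [Step.ap, Bool.false_eq_true, if_false, Ex.eval, Op.ap]
        ring
  · -- the hole is on the left
    cases o
    · refine ⟨fun _ => 1, fun T => D.eval (pt a c T), fun T _ => one_ne_zero, fun T _ => ?_,
        fun T T' h => ⟨rfl, eval_pt_congr a c D h⟩⟩
      simp only [Step.ap, if_true, Ex.eval, Op.ap]
      ring
    · refine ⟨fun _ => 1, fun T => -D.eval (pt a c T), fun T _ => one_ne_zero, fun T _ => ?_,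
        fun T T' h => ⟨rfl, congrArg Neg.neg (eval_pt_congr a c D h)⟩⟩
      simp only [Step.ap, if_true, Ex.eval, Op.ap]
      ring
    · refine ⟨fun T => D.eval (pt a c T), fun _ => 0, fun T hT => ?_, fun T _ => ?_,
        fun T T' h => ⟨eval_pt_congr a c D h, rfl⟩⟩
      · exact (hG H D (Ex.mem_subs_self _) T hT).2
      · simp only [Step.ap, if_true, Ex.eval, Op.ap]
        ring

/-- The value of a context is an affine function with nonzero slope, which depends only on the
variables in the context. -/
theorem plug_eval (a c : ℕ → ℚ) (X : Finset ℕ) (hs : List Step) (G : Ex)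
    (hG : Gd a c X (plug hs G)) : ∃ A C : Finset ℕ → ℚ, (∀ T ⊆ X, A T ≠ 0) ∧
      (∀ T ⊆ X, (plug hs G).eval (pt a c T) = A T * G.eval (pt a c T) + C T) ∧
      ∀ T T' : Finset ℕ, (∀ i, ho hs i ≠ 0 → (i ∈ T ↔ i ∈ T')) → A T = A T' ∧ C T = C T' := by
  induction hs with
  | nil =>
    exact ⟨fun _ => 1, fun _ => 0, fun T _ => one_ne_zero, fun T _ => by rw [plug_nil]; ring,
      fun T T' _ => ⟨rfl, rfl⟩⟩
  | cons s hs ih =>
    rw [plug_cons] at hG
    obtain ⟨A, C, hA, hval, hdep⟩ := ih (hG.of_mem (mem_subs_ap s _))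
    obtain ⟨x, y, hx, hxy, hxd⟩ := ap_eval a c X s _ hG
    refine ⟨fun T => x T * A T, fun T => x T * C T + y T, fun T hT => mul_ne_zero (hx T hT)
      (hA T hT), fun T hT => ?_, fun T T' h => ?_⟩
    · rw [plug_cons, hxy T hT, hval T hT]
      ring
    · obtain ⟨h1, h2⟩ := hdep T T' fun i hi => h i (by rw [ho_cons]; omega)
      obtain ⟨h3, h4⟩ := hxd T T' fun i hi => h i (by rw [ho_cons]; omega)
      exact ⟨by simp only [h1, h3], by simp only [h2, h3, h4]⟩

theorem ca_congr {α α' : ℕ → Bool → ℚ} {l : List ℕ} (h : ∀ i ∈ l, α i = α' i) (T : Finset ℕ) :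
    ca α l T = ca α' l T := by
  induction l with
  | nil => rfl
  | cons i l ih =>
    simp only [ca]
    rw [h i List.mem_cons_self, ih fun j hj => h j (List.mem_cons_of_mem _ hj)]

theorem cb_congr {α α' β β' : ℕ → Bool → ℚ} {l : List ℕ} (h : ∀ i ∈ l, α i = α' i)
    (h' : ∀ i ∈ l, β i = β' i) (T : Finset ℕ) : cb α β l T = cb α' β' l T := by
  induction l with
  | nil => rfl
  | cons i l ih =>
    simp only [cb]
    rw [h i List.mem_cons_self, h' i List.mem_cons_self,
      ih (fun j hj => h j (List.mem_cons_of_mem _ hj)) fun j hj => h' j (List.mem_cons_of_mem _ hj)]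

/-- **The value of a separated chain.** -/
theorem Sep.eval {a c : ℕ → ℚ} {X : Finset ℕ} {B E : Ex} {us : List ℕ} (h : Sep B E us)
    (hus : ∀ u ∈ us, u ∈ X) (hG : Gd a c X E) :
    ∃ α β : ℕ → Bool → ℚ, (∀ i b, α i b ≠ 0) ∧ ∀ T ⊆ X, (∀ i ∈ T, i ∉ us → E.occ i = B.occ i) →
      E.eval (pt a c T) = ca α us T * B.eval (pt a c T) + cb α β us T := by
  induction h with
  | nil =>
    refine ⟨fun _ _ => 1, fun _ _ => 0, fun _ _ => one_ne_zero, fun T _ _ => ?_⟩
    simp only [ca, cb]
    ring
  | @cons hs G us u h1 h2 h3 h4 ih =>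
    obtain ⟨α, β, hα, hval⟩ := ih (fun w hw => hus w (List.mem_cons_of_mem _ hw))
      (hG.of_mem (mem_subs_plug hs G))
    obtain ⟨A, C, hA, hAC, hdep⟩ := plug_eval a c X hs G hG
    have huX : u ∈ X := hus u List.mem_cons_self
    have huus : u ∉ us := fun hu => h1 (h2 u hu)
    have hle : ∀ i, B.occ i ≤ G.occ i := by
      intro i
      obtain ⟨hs', hG'⟩ := h4.exists_plug
      rw [hG', occ_plug]
      omega
    refine ⟨fun i b => if i = u then (if b then A {u} else A ∅) else α i b,
      fun i b => if i = u then (if b then C {u} else C ∅) else β i b, fun i b => ?_,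
      fun T hT hocc => ?_⟩
    · dsimp only
      split_ifs
      · exact hA _ (Finset.singleton_subset_iff.2 huX)
      · exact hA _ (Finset.empty_subset _)
      · exact hα i b
    · have hT2 : ∀ i ∈ T, i ∉ us → G.occ i = B.occ i := by
        intro i hi hius
        by_cases hiu : i = u
        · rw [hiu]; exact h3
        · have h5 := hocc i hi (by
            rw [List.mem_cons, not_or]
            exact ⟨hiu, hius⟩)
          rw [occ_plug] at h5
          have := hle i
          omega
      have hT3 : ∀ i ∈ T, ho hs i ≠ 0 → i = u := by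
        intro i hi hio
        by_contra hiu
        have h5 := hocc i hi (by
          rw [List.mem_cons, not_or]
          exact ⟨hiu, fun hius => hio (h2 i hius)⟩)
        rw [occ_plug] at h5
        have := hle i
        omega
      rw [hAC T hT, hval T hT hT2]
      have e1 : ca (fun i b => if i = u then (if b then A {u} else A ∅) else α i b) us T =
          ca α us T := ca_congr (fun i hi => by
            funext b
            rw [if_neg (fun hiu : i = u => huus (hiu ▸ hi))]) T
      have e2 : cb (fun i b => if i = u then (if b then A {u} else A ∅) else α i b)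
          (fun i b => if i = u then (if b then C {u} else C ∅) else β i b) us T =
          cb α β us T := cb_congr (fun i hi => by
            funext b
            rw [if_neg (fun hiu : i = u => huus (hiu ▸ hi))]) (fun i hi => by
            funext b
            rw [if_neg (fun hiu : i = u => huus (hiu ▸ hi))]) T
      simp only [ca, cb]
      rw [e1, e2]
      by_cases huT : u ∈ T
      · obtain ⟨k1, k2⟩ := hdep T {u} fun i hi => by
          rw [Finset.mem_singleton]
          exact ⟨fun h => hT3 i h hi, fun h => h ▸ huT⟩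
        rw [k1, k2]
        simp only [huT, decide_true, if_true]
        ring
      · obtain ⟨k1, k2⟩ := hdep T ∅ fun i hi => by
          constructor
          · intro h
            exact absurd (hT3 i h hi ▸ h) huT
          · intro h
            exact absurd h (Finset.notMem_empty _)
        rw [k1, k2]
        simp only [huT, decide_false, if_true, Bool.false_eq_true, if_false]
        ring

end Pool.Agent.J6H25.CR
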