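import Pool.Agent.J6H25.CR.RA1
import Pool.Agent.J6H25.CR.RA2
import Pool.Agent.J6H25.CR.RB1
import Pool.Agent.J6H25.CR.RB2
import Pool.Agent.J6H25.CR.RB3
import Pool.Agent.J6H25.CR.RC1
import Pool.Agent.J6H25.CR.RC2
import Pool.Agent.J6H25.CR.RD2
import Pool.Agent.J6H25.CR.RE

/-!
# Hardness of representation for expressions with few occurrences
-/

set_option autoImplicit false

namespace Pool.Agent.J6H25.CR

open Pool.Agent.J6H25.PIT

/-- the main induction, bounded numbers of occurrences -/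
def PJ (j : ℕ) : Prop := ∃ W : ℕ, ∀ L : ℕ, ∃ m : ℕ, ∀ (a c : ℕ → ℚ) (E : Ex) (X : List ℕ),
    X.Pairwise (· < ·) → (∀ i ∈ X, E.occ i ≤ j) → Gd a c X.toFinset E → m ≤ X.length →
    ∃ Y : List ℕ, Y.Sublist X ∧ L ≤ Y.length ∧ Rep W Y (fun T => E.eval (pt a c T))

/-- the main induction, few variables with many occurrences -/
def PK (j k : ℕ) : Prop := ∃ W : ℕ, ∀ L : ℕ, ∃ m : ℕ, ∀ (a c : ℕ → ℚ) (E : Ex) (X : List ℕ),
    X.Pairwise (· < ·) →
    (∀ F ∈ E.subs, (X.filter fun i => decide (j < F.occ i ∧ F.occ i < E.occ i)).length ≤ k) →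
    Gd a c X.toFinset E → m ≤ X.length →
    ∃ Y : List ℕ, Y.Sublist X ∧ L ≤ Y.length ∧ Rep W Y (fun T => E.eval (pt a c T))

theorem Gd.mono {a c : ℕ → ℚ} {X X' : Finset ℕ} {E F : Ex} (h : Gd a c X E) (hX : X' ⊆ X)
    (hF : F ∈ E.subs) : Gd a c X' F := fun s t hst T hT =>
  h s t (Ex.subs_trans hF hst) T (hT.trans hX)

theorem nodup_of_lt {X : List ℕ} (h : X.Pairwise (· < ·)) : X.Nodup :=
  h.imp fun h => h.ne

theorem sublist_of_sorted {X Y : List ℕ} (hX : X.Pairwise (· < ·)) (hY : Y.Pairwise (· < ·))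
    (h : ∀ i ∈ Y, i ∈ X) : Y.Sublist X :=
  List.sublist_of_subperm_of_pairwise ((nodup_of_lt hY).subperm h) hY hX

theorem rep_const_of_occ {a c : ℕ → ℚ} {E : Ex} {Y : List ℕ} (h : ∀ i ∈ Y, E.occ i = 0) :
    Rep 1 Y (fun T => E.eval (pt a c T)) := by
  refine (Rep.const Y (E.eval (pt a c ∅))).congr fun T hT => ?_
  refine Ex.eval_congr fun i hi => ?_
  unfold pt
  rw [if_neg (fun hiT => hi (h i (hT i hiT))), if_neg (Finset.notMem_empty i)]

theorem PJ_zero : PJ 0 := by
  refine ⟨1, fun L => ⟨L, fun a c E X hX h0 _ hL => ⟨X, List.Sublist.refl _, hL, ?_⟩⟩⟩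
  exact rep_const_of_occ fun i hi => Nat.le_zero.1 (h0 i hi)

theorem PJ_succ {j : ℕ} (h : PK j 0) : PJ (j + 1) := by
  obtain ⟨W, hW⟩ := h
  refine ⟨W, fun L => ?_⟩
  obtain ⟨m, hm⟩ := hW L
  refine ⟨m, fun a c E X hX hocc hG hl => hm a c E X hX (fun F hF => ?_) hG hl⟩
  rw [Nat.le_zero, List.length_eq_zero_iff, List.filter_eq_nil_iff]
  intro i hi
  rw [decide_eq_true_eq]
  have := hocc i hi
  omega

/-- counting in nodup lists -/
theorem length_filter_le {X us : List ℕ} (hus : us.Nodup) (h : ∀ u ∈ us, u ∈ X)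
    {p q : ℕ → Bool} (hpq : ∀ i, p i = true → q i = true) :
    (us.filter p).length ≤ (X.filter q).length := by
  refine ((hus.filter p).subperm fun i hi => ?_).length_le
  rw [List.mem_filter] at hi ⊢
  exact ⟨h i hi.1, hpq i hi.2⟩

/-- the value of an operation -/
theorem Rep.op {W : ℕ} {Y : List ℕ} {a c : ℕ → ℚ} {o : Op} {s t : Ex}
    (hs : Rep W Y (fun T => s.eval (pt a c T))) (ht : Rep W Y (fun T => t.eval (pt a c T))) :
    Rep (W * W + 2 * W) Y (fun T => (Ex.op o s t).eval (pt a c T)) := by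
  cases o with
  | add => exact (hs.add ht).mono (by omega)
  | sub =>
    refine ((hs.add ((Rep.const Y (-1)).mul ht)).mono (by omega)).congr fun T hT => ?_
    simp only [Ex.eval, Op.ap]
    ring
  | mul => exact (hs.mul ht).mono (by omega)

/-- a context without variables -/
theorem Rep.plug {W : ℕ} {Y : List ℕ} {a c : ℕ → ℚ} {X : Finset ℕ} {hs : List Step} {G : Ex}
    (hYX : ∀ i ∈ Y, i ∈ X) (hY : ∀ i ∈ Y, ho hs i = 0) (hG : Gd a c X (plug hs G))
    (h : Rep W Y (fun T => G.eval (pt a c T))) :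
    Rep (W + 1) Y (fun T => (CR.plug hs G).eval (pt a c T)) := by
  obtain ⟨A, C, -, h2, h3⟩ := plug_eval a c X hs G hG
  refine ((((Rep.const Y (A ∅)).mul h).add (Rep.const Y (C ∅))).mono (by omega)).congr
    fun T hT => ?_
  show (CR.plug hs G).eval (pt a c T) = A ∅ * G.eval (pt a c T) + C ∅
  rw [h2 T (fun i hi => hYX i (hT i hi))]
  obtain ⟨h4, h5⟩ := h3 T ∅ fun i hi => ⟨fun hiT => absurd (hY i (hT i hiT)) hi,
    fun hi' => absurd hi' (Finset.notMem_empty i)⟩
  rw [h4, h5]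

theorem PK_of_PJ {j : ℕ} (k : ℕ) (h : PJ j) : PK j k := by
  obtain ⟨W, hW⟩ := h
  refine ⟨W * W + 2 * W + 4, fun L => ?_⟩
  obtain ⟨m₂, hm₂⟩ := hW L
  obtain ⟨m₁, hm₁⟩ := hW m₂
  obtain ⟨N₁, hN₁⟩ := exists_sep j k m₂
  obtain ⟨N₂, hN₂⟩ := exists_monotone_sublist N₁
  obtain ⟨n, hn⟩ := exists_seg (m₁ + 2 * k + 1) (by omega) N₂
  refine ⟨L + n, fun a c E X hX hf hG hlen => ?_⟩
  have hXn := nodup_of_lt hX
  by_cases h0 : L ≤ (X.filter fun i => decide (E.occ i = 0)).length
  · refine ⟨_, List.filter_sublist, h0, (rep_const_of_occ fun i hi => ?_).mono (by omega)⟩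
    rw [List.mem_filter] at hi
    exact of_decide_eq_true hi.2
  have hX1 : n ≤ (X.toFinset.filter fun i => E.occ i ≠ 0).card := by
    have h1 : (X.toFinset.filter fun i => E.occ i = 0).card +
        (X.toFinset.filter fun i => E.occ i ≠ 0).card = X.toFinset.card :=
      Finset.card_filter_add_card_filter_not _
    rw [List.toFinset_card_of_nodup hXn] at h1
    have h2 : (X.toFinset.filter fun i => E.occ i = 0).card ≤
        (X.filter fun i => decide (E.occ i = 0)).length := by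
      refine le_trans (Finset.card_le_card ?_) (List.toFinset_card_le _)
      intro i hi
      rw [Finset.mem_filter, List.mem_toFinset] at hi
      rw [List.mem_toFinset, List.mem_filter]
      exact ⟨hi.1, decide_eq_true hi.2⟩
    omega
  rcases hn E _ (fun i hi => (Finset.mem_filter.1 hi).2) hX1 with
    ⟨us, G', hseg, hus, hul⟩ | ⟨hs, o, s, t, Y, rfl, hYX, hYc, hY⟩
  · -- a long chain
    have husX : ∀ u ∈ us, u ∈ X := fun u hu =>
      List.mem_toFinset.1 (Finset.mem_filter.1 (hus u hu)).1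
    obtain ⟨us', hsub, hul', hmono⟩ := hN₂ us hseg.nodup (by omega)
    have hseg' := hseg.sublist hsub
    obtain ⟨vs, B, E', hs, hs', hvs, hvl, rfl, hho, hsep, hB, hBj⟩ := hN₁ E G' us' hseg'
      (fun G hs hE => (length_filter_le hseg'.nodup (fun u hu => husX u (hsub.subset hu))
        (fun i hi => hi)).trans (hf G (hE ▸ mem_subs_plug hs G))) (by omega)
    have hvsX : ∀ v ∈ vs, v ∈ X := fun v hv => husX v (hsub.subset (hvs.subset hv))
    have hvn : vs.Nodup := hseg'.nodup.sublist hvs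
    obtain ⟨Y', hY's, hY'm, hY'l, hY'r⟩ : ∃ Y' : List ℕ, Y'.Pairwise (· < ·) ∧
        (∀ i, i ∈ Y' ↔ i ∈ vs) ∧ Y'.length = m₂ ∧
        ∀ (W : ℕ) (f : Finset ℕ → ℚ), Rep W vs f → Rep W Y' f := by
      rcases hmono with hmono | hmono
      · exact ⟨vs, hmono.sublist hvs, fun i => Iff.rfl, hvl, fun W f h => h⟩
      · refine ⟨vs.reverse, ?_, fun i => List.mem_reverse, by rw [List.length_reverse, hvl],
          fun W f h => h.reverse hvn⟩
        rw [List.pairwise_reverse]
        exact hmono.sublist hvs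
    have hY'X : Y'.Sublist X := sublist_of_sorted hX hY's fun i hi => hvsX i ((hY'm i).1 hi)
    have hE'sub : E' ∈ (CR.plug hs E').subs := mem_subs_plug hs E'
    have hBsub : B ∈ E'.subs := by
      obtain ⟨hs₂, rfl⟩ := hsep.exists_plug
      exact mem_subs_plug _ _
    obtain ⟨Y'', hY''s, hY''l, hrB⟩ := hm₂ a c B Y' hY's
      (fun i hi => hBj i ((hY'm i).1 hi))
      (hG.mono (fun i hi => List.mem_toFinset.2 (hY'X.subset (List.mem_toFinset.1 hi)))
        (Ex.subs_trans hE'sub hBsub)) (by omega)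
    refine ⟨Y'', hY''s.trans hY'X, hY''l, ?_⟩
    have hY''v : ∀ i ∈ Y'', i ∈ vs := fun i hi => (hY'm i).1 (hY''s.subset hi)
    have hY''X : ∀ i ∈ Y'', i ∈ X.toFinset := fun i hi =>
      List.mem_toFinset.2 (hvsX i (hY''v i hi))
    refine (Rep.plug (W := W + 2) hY''X (fun i hi => hho i (hY''v i hi)) hG ?_).mono (by nlinarith)
    obtain ⟨α, β, hα, hev⟩ := hsep.eval (a := a) (c := c) (X := X.toFinset)
      (fun u hu => List.mem_toFinset.2 (hvsX u hu)) (hG.mono (Finset.Subset.refl _) hE'sub)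
    have hY'n := nodup_of_lt hY's
    have hra : Rep 1 Y'' (ca α vs) := (hY'r _ _ (rep_ca hα vs hvn)).sublist hY'n hY''s
    have hrb : Rep 2 Y'' (cb α β vs) := (hY'r _ _ (rep_cb hα β vs hvn)).sublist hY'n hY''s
    refine (((hra.mul hrB).add hrb).mono (by omega)).congr fun T hT => ?_
    exact hev T (fun i hi => hY''X i (hT i hi)) fun i hi hiv => absurd (hY''v i (hT i hi)) hiv
  · -- many variables split at one node
    have hsub_s : s ∈ (Ex.op o s t).subs := by simp [Ex.subs, Ex.mem_subs_self]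
    have hsub_t : t ∈ (Ex.op o s t).subs := by simp [Ex.subs, Ex.mem_subs_self]
    have hEs := Ex.subs_trans (mem_subs_plug hs (Ex.op o s t)) hsub_s
    have hEt := Ex.subs_trans (mem_subs_plug hs (Ex.op o s t)) hsub_t
    set E := CR.plug hs (Ex.op o s t) with hE
    have hocc : ∀ i, E.occ i = ho hs i + (s.occ i + t.occ i) := fun i => by
      rw [hE, occ_plug]; rfl
    set Y₁ := X.filter fun i => decide (i ∈ Y ∧ s.occ i ≤ j ∧ t.occ i ≤ j) with hY₁
    have hY₁l : m₁ ≤ Y₁.length := by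
      have h1 : Y ⊆ Y₁.toFinset ∪
          ((X.filter fun i => decide (j < s.occ i ∧ s.occ i < E.occ i)).toFinset ∪
          (X.filter fun i => decide (j < t.occ i ∧ t.occ i < E.occ i)).toFinset) := by
        intro i hi
        have hiX : i ∈ X := List.mem_toFinset.1 (Finset.mem_filter.1 (hYX hi)).1
        obtain ⟨h2, h3, h4⟩ := hY i hi
        simp only [Finset.mem_union, List.mem_toFinset, hY₁, List.mem_filter, decide_eq_true_eq]
        have h5 := hocc i
        by_cases h6 : s.occ i ≤ j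
        · by_cases h7 : t.occ i ≤ j
          · exact Or.inl ⟨hiX, hi, h6, h7⟩
          · exact Or.inr (Or.inr ⟨hiX, by omega, by omega⟩)
        · exact Or.inr (Or.inl ⟨hiX, by omega, by omega⟩)
      have h2 := Finset.card_le_card h1
      have h3 := (Finset.card_union_le _ _).trans (Nat.add_le_add_left (Finset.card_union_le _ _) _)
        |>.trans' h2
      have h4 := List.toFinset_card_le Y₁
      have h5 := List.toFinset_card_le (X.filter fun i => decide (j < s.occ i ∧ s.occ i < E.occ i))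
      have h6 := List.toFinset_card_le (X.filter fun i => decide (j < t.occ i ∧ t.occ i < E.occ i))
      have h7 := hf s hEs
      have h8 := hf t hEt
      omega
    have hY₁X : Y₁.Sublist X := List.filter_sublist
    have hY₁p : ∀ i ∈ Y₁, i ∈ Y ∧ s.occ i ≤ j ∧ t.occ i ≤ j := fun i hi =>
      of_decide_eq_true (List.mem_filter.1 hi).2
    have hY₁s := hX.sublist hY₁X
    obtain ⟨Z, hZ, hZl, hZr⟩ := hm₁ a c s Y₁ hY₁s (fun i hi => (hY₁p i hi).2.1)
      (hG.mono (fun i hi => List.mem_toFinset.2 (hY₁X.subset (List.mem_toFinset.1 hi))) hEs) hY₁l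
    have hZX := hZ.trans hY₁X
    have hZs := hX.sublist hZX
    obtain ⟨Z', hZ', hZ'l, hZ'r⟩ := hm₂ a c t Z hZs (fun i hi => (hY₁p i (hZ.subset hi)).2.2)
      (hG.mono (fun i hi => List.mem_toFinset.2 (hZX.subset (List.mem_toFinset.1 hi))) hEt) hZl
    refine ⟨Z', hZ'.trans hZX, hZ'l, ?_⟩
    refine (Rep.plug (fun i hi => List.mem_toFinset.2 ((hZ'.trans hZX).subset hi)) (fun i hi => ?_)
      hG (Rep.op (hZr.sublist (nodup_of_lt hZs) hZ') hZ'r)).mono (by omega)
    exact (hY i (hY₁p i ((hZ'.trans hZ).subset hi)).1).1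

theorem PJ_all (j : ℕ) : PJ j := by
  induction j with
  | zero => exact PJ_zero
  | succ j ih => exact PJ_succ (PK_of_PJ 0 ih)

/-- **Hardness of representation.** -/
theorem hard' (j k : ℕ) : ∃ m : ℕ, ∀ (a c : ℕ → ℚ) (E : Ex) (X : Finset ℕ),
    (∀ F ∈ E.subs, (X.filter fun i => j < F.occ i ∧ F.occ i < E.occ i).card ≤ k) →
    Gd a c X E → E.eval c ≠ 0 → (∀ T ⊆ X, T ≠ ∅ → E.eval (pt a c T) = 0) → X.card < m := by
  obtain ⟨W, hW⟩ := PK_of_PJ k (PJ_all j)
  obtain ⟨m, hm⟩ := hW W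
  refine ⟨m, fun a c E X hf hG h0 h1 => ?_⟩
  by_contra hc
  push Not at hc
  have hs : (X.sort (· ≤ ·)).Pairwise (· < ·) := (X.sortedLT_sort).pairwise
  have hsX : ∀ i, i ∈ X.sort (· ≤ ·) ↔ i ∈ X := fun i => Finset.mem_sort _
  obtain ⟨Y, hY, hYl, hr⟩ := hm a c E (X.sort (· ≤ ·)) hs (fun F hF => by
      refine le_trans ?_ (hf F hF)
      rw [← List.toFinset_card_of_nodup ((nodup_of_lt hs).filter _)]
      refine Finset.card_le_card fun i hi => ?_
      rw [List.mem_toFinset, List.mem_filter, hsX, decide_eq_true_eq] at hi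
      exact Finset.mem_filter.2 hi)
    (by rwa [Finset.sort_toFinset]) (by rwa [Finset.length_sort])
  have hYX : ∀ i ∈ Y, i ∈ X := fun i hi => (hsX i).1 (hY.subset hi)
  have := hr.length_lt (nodup_of_lt (hs.sublist hY)) (by
      have : pt a c ∅ = c := by
        funext i
        simp [pt]
      show E.eval (pt a c ∅) ≠ 0
      rwa [this]) fun T hT hTY => h1 T (fun i hi => hYX i (hTY i hi)) hT
  omega

end Pool.Agent.J6H25.CR
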