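import Pool.Agent.J6H25.CR.RF

/-!
# Points of small support
-/

set_option autoImplicit false

namespace Pool.Agent.J6H25.CR

open Pool.Agent.J6H25.PIT

open Classical in
/-- zero subexpressions are replaced by the constant zero -/
noncomputable def prune : Ex → Ex
  | Ex.var i => Ex.var i
  | Ex.num q => Ex.num q
  | Ex.op o s t => if IsZ (Ex.op o s t) then Ex.num 0 else Ex.op o (prune s) (prune t)

theorem eval_prune (E : Ex) (x : ℕ → ℚ) : (prune E).eval x = E.eval x := by
  induction E with
  | var i => rfl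
  | num q => rfl
  | op o s t ihs iht =>
    by_cases h : IsZ (Ex.op o s t)
    · rw [prune, if_pos h, h x]; rfl
    · rw [prune, if_neg h]
      simp only [Ex.eval, ihs, iht]

theorem occ_prune (E : Ex) (i : ℕ) : (prune E).occ i ≤ E.occ i := by
  induction E with
  | var i => exact le_rfl
  | num q => exact le_rfl
  | op o s t ihs iht =>
    by_cases h : IsZ (Ex.op o s t)
    · rw [prune, if_pos h]; exact Nat.zero_le _
    · rw [prune, if_neg h]
      simp only [Ex.occ]
      omega

theorem mem_subs_prune {E G' : Ex} (h : G' ∈ (prune E).subs) :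
    ∃ G ∈ E.subs, G' = prune G ∧ ∀ i, (prune E).occ i + G.occ i ≤ E.occ i + G'.occ i := by
  induction E with
  | var i =>
    simp only [prune, Ex.subs, List.mem_singleton] at h
    subst h
    exact ⟨_, Ex.mem_subs_self _, rfl, fun i => le_rfl⟩
  | num q =>
    simp only [prune, Ex.subs, List.mem_singleton] at h
    subst h
    exact ⟨_, Ex.mem_subs_self _, rfl, fun i => le_rfl⟩
  | op o s t ihs iht =>
    by_cases hz : IsZ (Ex.op o s t)
    · have hp : prune (Ex.op o s t) = Ex.num 0 := by rw [prune, if_pos hz]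
      rw [hp] at h
      simp only [Ex.subs, List.mem_singleton] at h
      refine ⟨_, Ex.mem_subs_self _, by rw [hp, h], fun i => ?_⟩
      rw [hp, h, add_comm]
    · have hp : prune (Ex.op o s t) = Ex.op o (prune s) (prune t) := by rw [prune, if_neg hz]
      rw [hp] at h
      simp only [Ex.subs, List.mem_cons, List.mem_append] at h
      rcases h with h | h | h
      · refine ⟨_, Ex.mem_subs_self _, by rw [hp, h], fun i => ?_⟩
        rw [hp, h, add_comm]
      · obtain ⟨G, hG, h1, h2⟩ := ihs h
        refine ⟨G, by simp [Ex.subs, hG], h1, fun i => ?_⟩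
        rw [hp]
        simp only [Ex.occ]
        have := h2 i
        have := occ_prune t i
        omega
      · obtain ⟨G, hG, h1, h2⟩ := iht h
        refine ⟨G, by simp [Ex.subs, hG], h1, fun i => ?_⟩
        rw [hp]
        simp only [Ex.occ]
        have := h2 i
        have := occ_prune s i
        omega

theorem mul_mem_subs_prune {E s' t' : Ex} (h : Ex.op Op.mul s' t' ∈ (prune E).subs) :
    ∃ s t, Ex.op Op.mul s t ∈ E.subs ∧ s' = prune s ∧ t' = prune t ∧
      ¬ IsZ (Ex.op Op.mul s t) := by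
  obtain ⟨G, hG, h1, -⟩ := mem_subs_prune h
  cases G with
  | var i => simp [prune] at h1
  | num q => simp [prune] at h1
  | op o s t =>
    by_cases hz : IsZ (Ex.op o s t)
    · rw [prune, if_pos hz] at h1
      exact absurd h1 (by simp)
    · rw [prune, if_neg hz] at h1
      simp only [Ex.op.injEq] at h1
      obtain ⟨rfl, rfl, rfl⟩ := h1
      exact ⟨s, t, hG, rfl, rfl, hz⟩

/-- the size -/
def esz : Ex → ℕ
  | Ex.var _ => 1
  | Ex.num _ => 1
  | Ex.op _ s t => esz s + esz t + 1

theorem esz_le {E F : Ex} (h : F ∈ E.subs) : esz F ≤ esz E := by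
  induction E with
  | var i => simp only [Ex.subs, List.mem_singleton] at h; rw [h]
  | num q => simp only [Ex.subs, List.mem_singleton] at h; rw [h]
  | op o s t ihs iht =>
    simp only [Ex.subs, List.mem_cons, List.mem_append] at h
    rcases h with rfl | h | h
    · exact le_rfl
    · have := ihs h; simp only [esz]; omega
    · have := iht h; simp only [esz]; omega

theorem ne_of_op_left {E : Ex} {o : Op} {s t : Ex} (h : Ex.op o s t ∈ E.subs) : s ≠ E := by
  rintro rfl
  have := esz_le h
  simp only [esz] at this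
  omega

theorem ne_of_op_right {E : Ex} {o : Op} {s t : Ex} (h : Ex.op o s t ∈ E.subs) : t ≠ E := by
  rintro rfl
  have := esz_le h
  simp only [esz] at this
  omega

theorem light_finite (j : ℕ) (E F : Ex) : {i : ℕ | j < F.occ i ∧ F.occ i < E.occ i}.Finite := by
  refine (F.vlist.toFinset.finite_toSet).subset fun i hi => ?_
  rw [Finset.mem_coe, List.mem_toFinset, Ex.mem_vlist]
  have := hi.1
  omega

theorem occ_le_of_mem_subs {E C : Ex} (h : C ∈ E.subs) (i : ℕ) : C.occ i ≤ E.occ i := by
  induction E with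
  | var j => simp only [Ex.subs, List.mem_singleton] at h; rw [h]
  | num q => simp only [Ex.subs, List.mem_singleton] at h; rw [h]
  | op o s t ihs iht =>
    simp only [Ex.subs, List.mem_cons, List.mem_append] at h
    rcases h with rfl | h | h
    · exact le_rfl
    · have := ihs h; simp only [Ex.occ]; omega
    · have := iht h; simp only [Ex.occ]; omega

/-- Points of small support. -/
theorem small_support (j k : ℕ) : ∃ m : ℕ, ∀ (E F : Ex), Light j k E → F ∈ E.subs →
    ¬ IsZ F → ∀ a : ℕ → ℚ, (∀ G ∈ F.subs, G ≠ F → ¬ IsZ G → G.eval a ≠ 0) →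
    ∃ (S : Finset ℕ) (x : ℕ → ℚ), S.card < m ∧ (∀ i ∈ S, F.occ i ≠ 0) ∧ (∀ i ∉ S, x i = a i) ∧
      F.eval x ≠ 0 := by
  obtain ⟨m, hm⟩ := hard' j k
  refine ⟨m, fun E F hE hF hz a ha => ?_⟩
  -- a minimal support
  have hex : ∃ n, ∃ S : Finset ℕ, S.card = n ∧ (∀ i ∈ S, F.occ i ≠ 0) ∧
      ∃ x : ℕ → ℚ, (∀ i ∉ S, x i = a i) ∧ F.eval x ≠ 0 := by
    unfold IsZ at hz
    push Not at hz
    obtain ⟨x, hx⟩ := hz
    refine ⟨_, F.vlist.toFinset, rfl, fun i hi => Ex.mem_vlist.1 (List.mem_toFinset.1 hi),
      fun i => if i ∈ F.vlist.toFinset then x i else a i, fun i hi => if_neg hi, ?_⟩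
    rwa [Ex.eval_congr (y := x)]
    intro i hi
    exact if_pos (List.mem_toFinset.2 (Ex.mem_vlist.2 hi))
  classical
  obtain ⟨S, hSn, hS, x₀, hx₀, hx₀'⟩ := Nat.find_spec hex
  have hmin : ∀ S' : Finset ℕ, S'.card < S.card → (∀ i ∈ S', F.occ i ≠ 0) →
      ∀ x : ℕ → ℚ, (∀ i ∉ S', x i = a i) → F.eval x = 0 := by
    intro S' hS' hocc x hx
    by_contra hc
    rw [hSn] at hS'
    exact Nat.find_min hex hS' ⟨S', rfl, hocc, x, hx, hc⟩
  -- generic values
  set F' := prune F with hF'
  let σ : Finset ℕ → ℕ → Ex := fun T i => if i ∈ S \ T then Ex.var i else Ex.num (a i)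
  have hσ : ∀ (T : Finset ℕ) (G : Ex) (x : ℕ → ℚ),
      (G.sbs (σ T)).eval x = G.eval (fun i => if i ∈ S \ T then x i else a i) := by
    intro T G x
    rw [Ex.eval_sbs]
    congr 1
    funext i
    simp only [σ]
    split_ifs <;> rfl
  obtain ⟨x, hx⟩ := generic ((S.powerset.toList.flatMap fun T =>
      (F'.subs.filter fun G => decide (G.eval a ≠ 0)).map fun G => G.sbs (σ T)) ++
        [F'.sbs (σ ∅)]) (by
    intro G hG
    rcases List.mem_append.1 hG with hG | hG
    · obtain ⟨T, -, hG⟩ := List.mem_flatMap.1 hG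
      obtain ⟨G₀, hG₀, rfl⟩ := List.mem_map.1 hG
      have h1 := of_decide_eq_true (List.mem_filter.1 hG₀).2
      intro h2
      apply h1
      have h3 := h2 a
      rw [hσ] at h3
      simpa using h3
    · rw [List.mem_singleton] at hG
      subst hG
      intro h2
      apply hx₀'
      have h3 := h2 x₀
      rw [hσ, hF', eval_prune] at h3
      rw [← h3]
      congr 1
      funext i
      by_cases hi : i ∈ S
      · simp [hi]
      · simp [hi, hx₀ i hi])
  set c : ℕ → ℚ := fun i => if i ∈ S then x i else a i with hc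
  have hpt : ∀ T ⊆ S, pt a c T = fun i => if i ∈ S \ T then x i else a i := by
    intro T hT
    funext i
    unfold pt
    rw [hc]
    by_cases h1 : i ∈ T
    · simp [h1]
    · by_cases h2 : i ∈ S
      · simp [h1, h2]
      · simp [h1, h2]
  have hc0 : pt a c ∅ = c := by
    funext i
    simp [pt]
  have hF'c : F'.eval c ≠ 0 := by
    have h1 := hx (F'.sbs (σ ∅)) (List.mem_append_right _ (List.mem_singleton.2 rfl))
    rw [hσ] at h1
    rw [← hc0, hpt ∅ (Finset.empty_subset _)]
    exact h1
  have hGd : Gd a c S F' := by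
    intro s' t' hst T hT
    obtain ⟨s, t, h1, rfl, rfl, h2⟩ := mul_mem_subs_prune hst
    have hs : ¬ IsZ s := fun h => h2 fun y => by simp [Ex.eval, Op.ap, h y]
    have ht : ¬ IsZ t := fun h => h2 fun y => by simp [Ex.eval, Op.ap, h y]
    have hsm : s ∈ F.subs := Ex.subs_trans h1 (by simp [Ex.subs, Ex.mem_subs_self])
    have htm : t ∈ F.subs := Ex.subs_trans h1 (by simp [Ex.subs, Ex.mem_subs_self])
    have hsm' : prune s ∈ F'.subs := Ex.subs_trans hst (by simp [Ex.subs, Ex.mem_subs_self])
    have htm' : prune t ∈ F'.subs := Ex.subs_trans hst (by simp [Ex.subs, Ex.mem_subs_self])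
    have key : ∀ G' ∈ F'.subs, G'.eval a ≠ 0 → G'.eval (pt a c T) ≠ 0 := by
      intro G' hG' hG'a
      have h3 := hx (G'.sbs (σ T)) (List.mem_append_left _ (List.mem_flatMap.2
        ⟨T, by rwa [Finset.mem_toList, Finset.mem_powerset], List.mem_map.2
          ⟨G', List.mem_filter.2 ⟨hG', decide_eq_true hG'a⟩, rfl⟩⟩))
      rw [hσ] at h3
      rw [hpt T hT]
      exact h3
    refine ⟨key _ hsm' ?_, key _ htm' ?_⟩
    · rw [eval_prune]
      exact ha s hsm (ne_of_op_left h1) hs
    · rw [eval_prune]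
      exact ha t htm (ne_of_op_right h1) ht
  refine ⟨S, x₀, ?_, hS, hx₀, hx₀'⟩
  refine hm a c F' S (fun G' hG' => ?_) hGd hF'c fun T hT hT0 => ?_
  · obtain ⟨G, hG, rfl, h1⟩ := mem_subs_prune hG'
    refine le_trans ?_ (hE G (Ex.subs_trans hF hG))
    rw [← Set.ncard_coe_finset]
    refine Set.ncard_le_ncard (fun i hi => ?_) (light_finite j E G)
    rw [Finset.mem_coe, Finset.mem_filter] at hi
    have h2 := h1 i
    have h3 := occ_prune G i
    have h4 := occ_le_of_mem_subs hF i
    rw [← hF'] at h2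
    exact ⟨by omega, by omega⟩
  · rw [hF', eval_prune]
    refine hmin (S \ T) ?_ (fun i hi => hS i (Finset.mem_sdiff.1 hi).1) _ fun i hi => ?_
    · refine Finset.card_lt_card (Finset.ssubset_iff_subset_ne.2 ⟨Finset.sdiff_subset, fun h => ?_⟩)
      apply hT0
      rw [Finset.sdiff_eq_self_iff_disjoint] at h
      exact (Finset.disjoint_self_iff_empty T).1 (Finset.disjoint_of_subset_left hT h)
    · rw [hpt T hT]
      exact if_neg hi

end Pool.Agent.J6H25.CR
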