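import Pool.Agent.J6H25.CR.RG
import Pool.Agent.J6H25.PIT.Dec

/-!
# The algorithm
-/

set_option autoImplicit false

namespace Pool.Agent.J6H25.CR

open Pool.Agent.J6H25.PIT Pool.Agent.NPC

/-- the assignments of at most `m` variables which make `F` and all expressions of the list
different from zero -/
def cnd (m : ℕ) (W R : List ℕ) (s : Asg × List Ex) (F : Ex) : List Asg :=
  (pts' m W R).filter fun g => (F :: s.2).all fun P => nz (st (g ++ s.1) P)

/-- one step -/
def stp (m : ℕ) (W R : List ℕ) (s : Asg × List Ex) (F : Ex) : Asg × List Ex :=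
  (cnd m W R s F).head?.elim s fun g => (g ++ s.1, F :: s.2)

/-- the steps for the expressions of a list -/
def run (m : ℕ) (W R : List ℕ) (s : Asg × List Ex) (L : List Ex) : Asg × List Ex :=
  L.foldl (stp m W R) s

/-- the number of values -/
def DD (E : Ex) : ℕ := (E.subs.flatMap fun _ => E.vlist).length + 1

/-- the algorithm -/
def alg (m : ℕ) (E : Ex) : Bool :=
  nz (st (run m E.vlist (List.range (DD E)) (E.vlist.map fun i => (i, 0), []) E.subs.reverse).1 E)

/-- the point of an assignment -/
def xp (ρ : Asg) (i : ℕ) : ℚ := ((look ρ i).getD 0 : ℕ)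

theorem ext_xp (ρ : Asg) : Ext ρ (xp ρ) := fun i v h => by simp [xp, h]

theorem nz_iff' {ρ : Asg} {P : Ex} (h : ∀ i, P.occ i ≠ 0 → (look ρ i).isSome) {x : ℕ → ℚ}
    (hx : Ext ρ x) : nz (st ρ P) = true ↔ P.eval x ≠ 0 := by
  obtain ⟨a, h1, h2, h3⟩ := st_total h
  rw [h1, h3 x hx, Ne, val_eq_zero h2]
  simp [nz, isz]

/-- the invariant -/
def Inv (E : Ex) (s : Asg × List Ex) : Prop :=
  (∀ i, E.occ i ≠ 0 → (look s.1 i).isSome) ∧ ∀ P ∈ s.2, P ∈ E.subs ∧ P.eval (xp s.1) ≠ 0

/-- the product of the expressions of a list -/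
def prd (l : List Ex) : Ex := l.foldr (Ex.op Op.mul) (Ex.num 1)

theorem eval_prd (l : List Ex) (x : ℕ → ℚ) : (prd l).eval x ≠ 0 ↔ ∀ P ∈ l, P.eval x ≠ 0 := by
  induction l with
  | nil => simp [prd, Ex.eval]
  | cons P l ih =>
    have : (prd (P :: l)).eval x = P.eval x * (prd l).eval x := rfl
    rw [this, mul_ne_zero_iff, ih]
    simp

theorem occ_prd {l : List Ex} {i n : ℕ} (h : ∀ P ∈ l, P.occ i ≤ n) :
    (prd l).occ i ≤ l.length * n := by
  induction l with
  | nil => simp [prd, Ex.occ]
  | cons P l ih =>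
    have h1 : (prd (P :: l)).occ i = P.occ i + (prd l).occ i := rfl
    have h2 := ih fun Q hQ => h Q (List.mem_cons_of_mem _ hQ)
    have h3 := h P List.mem_cons_self
    rw [h1, List.length_cons, Nat.add_mul, Nat.one_mul]
    omega

theorem DD_eq (E : Ex) : DD E = E.subs.length * E.vlist.length + 1 := by
  unfold DD
  rw [List.length_flatMap]
  simp

/-- the smallest number of variables with the property of `small_support` -/
theorem stp_spec {m : ℕ} {E F : Ex} (hsm : ∀ a : ℕ → ℚ,
      (∀ G ∈ F.subs, G ≠ F → ¬ IsZ G → G.eval a ≠ 0) → ¬ IsZ F →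
      ∃ (S : Finset ℕ) (x : ℕ → ℚ), S.card ≤ m ∧ (∀ i ∈ S, F.occ i ≠ 0) ∧ (∀ i ∉ S, x i = a i) ∧
        F.eval x ≠ 0) (hF : F ∈ E.subs) {s : Asg × List Ex} (hs : Inv E s)
    (hsub : ∀ G ∈ F.subs, G ≠ F → ¬ IsZ G → G ∈ s.2) (hlen : s.2.length + 1 ≤ E.subs.length) :
    Inv E (stp m E.vlist (List.range (DD E)) s F) ∧
    (∀ P ∈ s.2, P ∈ (stp m E.vlist (List.range (DD E)) s F).2) ∧
    (¬ IsZ F → F ∈ (stp m E.vlist (List.range (DD E)) s F).2) ∧
    (stp m E.vlist (List.range (DD E)) s F).2.length ≤ s.2.length + 1 := by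
  have hocc : ∀ P ∈ F :: s.2, ∀ i, P.occ i ≠ 0 → E.occ i ≠ 0 := by
    intro P hP i hi
    have h1 : P ∈ E.subs := by
      rcases List.mem_cons.1 hP with rfl | hP
      · exact hF
      · exact (hs.2 P hP).1
    have := CR.occ_le_of_mem_subs h1 i
    omega
  cases hc : (cnd m E.vlist (List.range (DD E)) s F).head? with
  | some g =>
    have e : stp m E.vlist (List.range (DD E)) s F = (g ++ s.1, F :: s.2) := by
      unfold stp
      rw [hc]
      rfl
    rw [e]
    have h1 := List.mem_of_mem_head? hc
    unfold cnd at h1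
    rw [List.mem_filter, List.all_eq_true] at h1
    have hdom : ∀ i, E.occ i ≠ 0 → (look (g ++ s.1) i).isSome := by
      intro i hi
      rw [look_append]
      have := hs.1 i hi
      cases look g i <;> simp [this]
    refine ⟨⟨hdom, fun P hP => ⟨?_, ?_⟩⟩, fun P hP => List.mem_cons_of_mem _ hP,
      fun _ => List.mem_cons_self, le_rfl⟩
    · rcases List.mem_cons.1 hP with rfl | hP
      · exact hF
      · exact (hs.2 P hP).1
    · exact (nz_iff' (fun i hi => hdom i (hocc P hP i hi)) (ext_xp _)).1 (h1.2 P hP)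
  | none =>
    have e : stp m E.vlist (List.range (DD E)) s F = s := by
      unfold stp
      rw [hc]
      rfl
    rw [e]
    refine ⟨hs, fun P hP => hP, fun hz => ?_, Nat.le_succ _⟩
    exfalso
    obtain ⟨S, x, hSm, hSo, hx, hxF⟩ := hsm (xp s.1)
      (fun G hG hne hGz => (hs.2 G (hsub G hG hne hGz)).2) hz
    let σ : ℕ → Ex := fun i => if i ∈ S then Ex.var i else Ex.num (xp s.1 i)
    have hσ : ∀ (G : Ex) (y : ℕ → ℚ), (G.sbs σ).eval y =
        G.eval (fun i => if i ∈ S then y i else xp s.1 i) := by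
      intro G y
      rw [Ex.eval_sbs]
      congr 1
      funext i
      simp only [σ]
      split_ifs <;> rfl
    obtain ⟨y, hy⟩ := generic ((F :: s.2).map fun P => P.sbs σ) (by
      intro P' hP'
      obtain ⟨P, hP, rfl⟩ := List.mem_map.1 hP'
      intro h0
      rcases List.mem_cons.1 hP with rfl | hP
      · apply hxF
        have h1 := h0 x
        rw [hσ] at h1
        rw [← h1]
        congr 1
        funext i
        by_cases hi : i ∈ S
        · simp [hi]
        · simp [hi, hx i hi]
      · apply (hs.2 P hP).2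
        have h1 := h0 (xp s.1)
        rw [hσ] at h1
        simpa using h1)
    have hy' : ∀ P ∈ F :: s.2, P.eval (fun i => if i ∈ S then y i else xp s.1 i) ≠ 0 := by
      intro P hP
      rw [← hσ]
      exact hy _ (List.mem_map.2 ⟨P, hP, rfl⟩)
    obtain ⟨f, hf, hf'⟩ := exists_grid (E := prd (F :: s.2)) (D := DD E) (fun i => by
      have h1 : (prd (F :: s.2)).occ i ≤ (F :: s.2).length * E.vlist.length := by
        refine occ_prd fun P hP => ?_
        have h2 : P ∈ E.subs := by
          rcases List.mem_cons.1 hP with rfl | hP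
          · exact hF
          · exact (hs.2 P hP).1
        exact (CR.occ_le_of_mem_subs h2 i).trans (E.occ_le_length i)
      rw [DD_eq]
      have h2 := Nat.mul_le_mul_right E.vlist.length hlen
      rw [List.length_cons] at h1
      omega) S ((eval_prd _ _).2 hy')
    obtain ⟨g, hg, hg'⟩ := exists_pts (W := E.vlist) hf S hSm fun i hi => by
      rw [Ex.mem_vlist]
      exact hocc F List.mem_cons_self i (hSo i hi)
    have hdom : ∀ i, E.occ i ≠ 0 → (look (g ++ s.1) i).isSome := by
      intro i hi
      rw [look_append]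
      have := hs.1 i hi
      cases look g i <;> simp [this]
    have hext : Ext (g ++ s.1) (fun i => if i ∈ S then (f i : ℚ) else xp s.1 i) := by
      intro i v hv
      rw [look_append, hg'] at hv
      by_cases hi : i ∈ S
      · simp only [hi, if_true, Option.some_or, Option.some.injEq] at hv ⊢
        rw [hv]
      · simp only [hi, if_false, Option.none_or] at hv ⊢
        exact ext_xp s.1 i v hv
    have hmem : g ∈ cnd m E.vlist (List.range (DD E)) s F := by
      unfold cnd
      rw [List.mem_filter, List.all_eq_true]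
      refine ⟨by rwa [← pts_eq], fun P hP => ?_⟩
      rw [nz_iff' (fun i hi => hdom i (hocc P hP i hi)) hext]
      have h1 := (eval_prd _ _).1 hf' P hP
      convert h1 using 2
      funext i
      by_cases hi : i ∈ S
      · simp [hi]
      · simp [hi]
    rw [List.head?_eq_none_iff] at hc
    rw [hc] at hmem
    cases hmem

theorem run_append (m : ℕ) (W R : List ℕ) (s : Asg × List Ex) (L L' : List Ex) :
    run m W R s (L ++ L') = run m W R (run m W R s L) L' := List.foldl_append

/-- the steps for all subexpressions -/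
theorem run_spec {m : ℕ} {E : Ex} (hsm : ∀ F ∈ E.subs, ∀ a : ℕ → ℚ,
      (∀ G ∈ F.subs, G ≠ F → ¬ IsZ G → G.eval a ≠ 0) → ¬ IsZ F →
      ∃ (S : Finset ℕ) (x : ℕ → ℚ), S.card ≤ m ∧ (∀ i ∈ S, F.occ i ≠ 0) ∧ (∀ i ∉ S, x i = a i) ∧
        F.eval x ≠ 0) (F : Ex) : F ∈ E.subs → ∀ s : Asg × List Ex, Inv E s →
    s.2.length + F.subs.length ≤ E.subs.length →
    Inv E (run m E.vlist (List.range (DD E)) s F.subs.reverse) ∧
    (∀ P ∈ s.2, P ∈ (run m E.vlist (List.range (DD E)) s F.subs.reverse).2) ∧
    (∀ G ∈ F.subs, ¬ IsZ G → G ∈ (run m E.vlist (List.range (DD E)) s F.subs.reverse).2) ∧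
    (run m E.vlist (List.range (DD E)) s F.subs.reverse).2.length ≤
      s.2.length + F.subs.length := by
  induction F with
  | var i =>
    intro hF s hs hl
    simp only [Ex.subs, List.length_singleton] at hl
    have h := stp_spec (hsm _ hF) hF hs (fun G hG hne => absurd (by
      simpa [Ex.subs] using hG) hne) hl
    refine ⟨h.1, h.2.1, fun G hG hz => ?_, h.2.2.2⟩
    simp only [Ex.subs, List.mem_singleton] at hG
    subst hG
    exact h.2.2.1 hz
  | num q =>
    intro hF s hs hl
    simp only [Ex.subs, List.length_singleton] at hl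
    have h := stp_spec (hsm _ hF) hF hs (fun G hG hne => absurd (by
      simpa [Ex.subs] using hG) hne) hl
    refine ⟨h.1, h.2.1, fun G hG hz => ?_, h.2.2.2⟩
    simp only [Ex.subs, List.mem_singleton] at hG
    subst hG
    exact h.2.2.1 hz
  | op o a b iha ihb =>
    intro hF s hs hl
    have ha : a ∈ E.subs := Ex.subs_trans hF (by simp [Ex.subs, Ex.mem_subs_self])
    have hb : b ∈ E.subs := Ex.subs_trans hF (by simp [Ex.subs, Ex.mem_subs_self])
    have e1 : (Ex.op o a b).subs.length = a.subs.length + b.subs.length + 1 := by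
      simp [Ex.subs]
    have e2 : (Ex.op o a b).subs.reverse = b.subs.reverse ++ (a.subs.reverse ++ [Ex.op o a b]) := by
      simp [Ex.subs]
    rw [e2, run_append, run_append]
    rw [e1] at hl ⊢
    obtain ⟨b1, b2, b3, b4⟩ := ihb hb s hs (by omega)
    obtain ⟨a1, a2, a3, a4⟩ := iha ha _ b1 (by omega)
    have h := stp_spec (hsm _ hF) hF a1 (fun G hG hne hz => by
      simp only [Ex.subs, List.mem_cons, List.mem_append] at hG
      rcases hG with hG | hG | hG
      · exact absurd hG hne
      · exact a3 G hG hz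
      · exact a2 _ (b3 G hG hz)) (by omega)
    refine ⟨h.1, fun P hP => h.2.1 _ (a2 _ (b2 _ hP)), fun G hG hz => ?_, ?_⟩
    · simp only [Ex.subs, List.mem_cons, List.mem_append] at hG
      rcases hG with hG | hG | hG
      · subst hG
        exact h.2.2.1 hz
      · exact h.2.1 _ (a3 G hG hz)
      · exact h.2.1 _ (a2 _ (b3 G hG hz))
    · have := h.2.2.2
      change (stp m E.vlist (List.range (DD E)) _ (Ex.op o a b)).2.length ≤ _
      omega

theorem alg_spec (j k : ℕ) : ∃ m : ℕ, ∀ E : Ex, Light j k E → (alg m E = true ↔ E.poly ≠ 0) := by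
  obtain ⟨m, hm⟩ := small_support j k
  refine ⟨m, fun E hE => ?_⟩
  rw [poly_ne_zero_iff]
  have hinit : ∀ i, E.occ i ≠ 0 → (look (E.vlist.map fun i => (i, 0)) i).isSome := by
    intro i hi
    rw [look_map_zero, if_pos (Ex.mem_vlist.2 hi)]
    rfl
  obtain ⟨h1, -, h3, -⟩ := run_spec (m := m) (E := E) (fun F hF a ha hz => by
      obtain ⟨S, x, h1, h2⟩ := hm E F hE hF hz a ha
      exact ⟨S, x, h1.le, h2⟩) E E.mem_subs_self (E.vlist.map fun i => (i, 0), [])
    ⟨hinit, fun P hP => by cases hP⟩ (by simp)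
  unfold alg
  rw [nz_iff' h1.1 (ext_xp _)]
  constructor
  · intro h hz
    exact h (hz _)
  · intro hz
    exact (h1.2 E (h3 E E.mem_subs_self hz)).2

/-- the test of the condition -/
def lgb (j k : ℕ) (E : Ex) : Bool :=
  E.subs.all fun F => (pts k F.vlist 1).any fun z => F.vlist.all fun i =>
    !(decide (j < cnt F.vlist i) && decide (cnt F.vlist i < cnt E.vlist i)) ||
      z.any fun p => decide (p.1 = i)

theorem lgb_iff {j k : ℕ} {E : Ex} : lgb j k E = true ↔ Light j k E := by
  unfold lgb Light
  rw [List.all_eq_true]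
  refine forall₂_congr fun F hF => ?_
  have hcnt : ∀ (G : Ex) (i : ℕ), cnt G.vlist i = G.occ i := fun G i => by
    rw [cnt_eq, Ex.count_vlist]
  simp only [List.any_eq_true, List.all_eq_true, hcnt, Bool.or_eq_true, Bool.not_eq_true',
    Bool.and_eq_false_iff, decide_eq_false_iff_not, decide_eq_true_eq]
  constructor
  · rintro ⟨z, hz, h⟩
    have hl := length_pts hz
    have hsub : {i : ℕ | j < F.occ i ∧ F.occ i < E.occ i} ⊆
        ((z.map Prod.fst).toFinset : Set ℕ) := by
      intro i hi
      have h1 : i ∈ F.vlist := by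
        rw [Ex.mem_vlist]
        have := hi.1
        omega
      rcases h i h1 with h2 | ⟨p, hp, hpi⟩
      · exfalso
        rcases h2 with h2 | h2
        · exact h2 hi.1
        · exact h2 hi.2
      · rw [Finset.mem_coe, List.mem_toFinset]
        exact List.mem_map.2 ⟨p, hp, hpi⟩
    refine (Set.ncard_le_ncard hsub (Finset.finite_toSet _)).trans ?_
    rw [Set.ncard_coe_finset]
    refine (List.toFinset_card_le _).trans ?_
    rwa [List.length_map]
  · intro h
    obtain ⟨g, hg, hg'⟩ := exists_pts (W := F.vlist) (D := 1) (f := fun _ => 0) (fun _ => one_pos)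
      (light_finite j E F).toFinset (r := k)
      (by rwa [← Set.ncard_eq_toFinset_card _ (light_finite j E F)]) (fun i hi => by
        rw [Set.Finite.mem_toFinset] at hi
        rw [Ex.mem_vlist]
        have := hi.1
        omega)
    refine ⟨g, hg, fun i hi => ?_⟩
    by_cases h1 : j < F.occ i ∧ F.occ i < E.occ i
    · right
      have h2 := hg' i
      rw [if_pos ((light_finite j E F).mem_toFinset.2 h1)] at h2
      have h3 : (look g i).isSome := by rw [h2]; rfl
      rw [look_isSome_iff] at h3
      obtain ⟨p, hp, hpi⟩ := List.mem_map.1 h3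
      exact ⟨p, hp, hpi⟩
    · left
      by_contra hc
      push Not at hc
      exact h1 hc

end Pool.Agent.J6H25.CR
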