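import Pool.Agent.J6H25.CR.RH

/-!
# The algorithm runs in polynomial time
-/

set_option autoImplicit false

namespace Pool.Agent.J6H25.CR

open Pool.Agent.J6H25.PIT Pool.Agent.NPC

variable {α β γ : Type} [TEnc α] [TEnc β] [TEnc γ]

@[fun_prop]
theorem poly_cnd (m : ℕ) {W R : α → List ℕ} {s : α → Asg × List Ex} {F : α → Ex} (hW : Poly W)
    (hR : Poly R) (hs : Poly s) (hF : Poly F) :
    Poly (fun a => cnd m (W a) (R a) (s a) (F a)) := by
  unfold cnd
  fun_prop

@[fun_prop]
theorem poly_stp (m : ℕ) {W R : α → List ℕ} {s : α → Asg × List Ex} {F : α → Ex} (hW : Poly W)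
    (hR : Poly R) (hs : Poly s) (hF : Poly F) :
    Poly (fun a => stp m (W a) (R a) (s a) (F a)) := by
  unfold stp
  fun_prop

theorem sz_pts' {m : ℕ} {W R : List ℕ} {g : Asg} (hg : g ∈ pts' m W R) :
    sz g ≤ m * (sz W + sz R + 2) + 1 := by
  induction m generalizing g with
  | zero =>
    simp only [pts', List.mem_singleton] at hg
    subst hg
    rw [sz_list_nil]
    omega
  | succ m ih =>
    simp only [pts', List.mem_append, List.mem_flatMap, List.mem_map] at hg
    rcases hg with hg | ⟨w, hw, v, hv, g', hg', rfl⟩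
    · have := ih hg
      rw [Nat.add_mul]
      omega
    · have h1 := ih hg'
      have h2 := sz_le_of_mem hw
      have h3 := sz_le_of_mem hv
      rw [sz_list_cons, sz_pair, Nat.add_mul]
      omega

theorem sz_stp (m : ℕ) (W R : List ℕ) (s : Asg × List Ex) (F : Ex) :
    sz (stp m W R s F) ≤ sz s + (m * (sz W + sz R + 2) + sz F + 4) := by
  unfold stp
  cases h : (cnd m W R s F).head? with
  | none =>
    simp only [Option.elim_none]
    omega
  | some g =>
    simp only [Option.elim_some]
    have h1 := List.mem_of_mem_head? h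
    unfold cnd at h1
    rw [List.mem_filter] at h1
    have h2 := sz_pts' h1.1
    have h3 := sz_append g s.1
    obtain ⟨ρ, P⟩ := s
    rw [sz_pair, sz_pair, sz_list_cons]
    simp only at h3 ⊢
    omega

theorem sz_run (m : ℕ) (W R : List ℕ) (B : ℕ) (L : List Ex) :
    ∀ s : Asg × List Ex, (∀ F ∈ L, sz F ≤ B) →
    sz (run m W R s L) ≤ sz s + L.length * (m * (sz W + sz R + 2) + B + 4) := by
  induction L with
  | nil => intro s _; simp [run]
  | cons F L ih =>
    intro s hB
    have e : run m W R s (F :: L) = run m W R (stp m W R s F) L := rfl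
    rw [e, List.length_cons, Nat.add_mul, Nat.one_mul]
    have h1 := ih (stp m W R s F) fun G hG => hB G (List.mem_cons_of_mem _ hG)
    have h2 := sz_stp m W R s F
    have h3 := hB F List.mem_cons_self
    omega

@[fun_prop]
theorem poly_run (m : ℕ) {W R : α → List ℕ} {s : α → Asg × List Ex} {L : α → List Ex}
    (hW : Poly W) (hR : Poly R) (hs : Poly s) (hL : Poly L) :
    Poly (fun a => run m (W a) (R a) (s a) (L a)) := by
  obtain ⟨p, hp⟩ := hW.sz_le
  obtain ⟨q, hq⟩ := hR.sz_le
  obtain ⟨r, hr⟩ := hs.sz_le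
  obtain ⟨t, ht⟩ := hL.sz_le
  unfold run
  refine Poly.foldl (F := fun a s F => stp m (W a) (R a) s F) hL hs (by fun_prop)
    (r + t * (Polynomial.C m * (p + q + Polynomial.C 2) + t + Polynomial.C 4)) ?_
  intro a k hk
  have h1 := sz_run m (W a) (R a) (sz (L a)) ((L a).take k) (s a) fun F hF =>
    (sz_le_of_mem (List.mem_of_mem_take hF)).le
  change sz (run m (W a) (R a) (s a) ((L a).take k)) ≤ _
  refine h1.trans ?_
  simp only [Polynomial.eval_add, Polynomial.eval_mul, Polynomial.eval_C]
  have h2 : ((L a).take k).length ≤ t.eval (sz a) := by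
    rw [List.length_take]
    have := length_lt_sz (L a)
    have := ht a
    omega
  refine Nat.add_le_add (hr a) (Nat.mul_le_mul h2 ?_)
  have h3 := Nat.mul_le_mul_left m (Nat.add_le_add_right (Nat.add_le_add (hp a) (hq a)) 2)
  have := ht a
  omega

@[fun_prop]
theorem poly_range_DD {e : α → Ex} (he : Poly e) : Poly (fun a => List.range (DD (e a))) :=
  poly_range_length_add (l := fun a => (e a).subs.flatMap fun _ => (e a).vlist) (by fun_prop) 1

/-- **The algorithm is a polynomial time algorithm.** -/
@[fun_prop]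
theorem poly_alg (m : ℕ) {e : α → Ex} (he : Poly e) : Poly (fun a => alg m (e a)) := by
  unfold alg
  fun_prop

/-- **The condition can be tested in polynomial time.** -/
@[fun_prop]
theorem poly_lgb (j k : ℕ) {e : α → Ex} (he : Poly e) : Poly (fun a => lgb j k (e a)) := by
  have h : Poly (fun E : Ex => lgb j k E) := by
    unfold lgb
    fun_prop
  exact h.comp he

end Pool.Agent.J6H25.CR
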